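import Mathlib

set_option autoImplicit false

/-! Algebraic part: the self-inversive polynomial `p + c κ + c̄ κ^d + p̄ κ^(d+1)` has at most one zero in
the open unit disc, counted with multiplicity. -/

namespace Pool.Agent.K3h53.BE

open Complex Finset ComplexConjugate

/-- the basic identity -/
theorem gram (d : ℕ) (κ μ c p : ℂ) (h1 : ‖κ‖ < 1) (h2 : ‖μ‖ < 1)
    (e1 : p + κ * c + κ ^ d * conj c + κ ^ (d + 1) * conj p = 0)
    (e2 : p + μ * c + μ ^ d * conj c + μ ^ (d + 1) * conj p = 0) :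
    (conj c + conj p * κ) * conj (conj c + conj p * μ) *
      ∑ s ∈ range d, (κ * conj μ) ^ s = c * conj c - p * conj p := by
  have hne : (1 : ℂ) - κ * conj μ ≠ 0 := by
    intro h
    have h3 : ‖κ * conj μ‖ = 1 := by
      rw [← sub_eq_zero.1 h]; simp
    rw [norm_mul, Complex.norm_conj] at h3
    nlinarith [norm_nonneg κ, norm_nonneg μ]
  apply mul_right_cancel₀ hne
  have h3 : (∑ s ∈ range d, (κ * conj μ) ^ s) * (1 - κ * conj μ) = 1 - (κ * conj μ) ^ d := by
    have := geom_sum_mul (κ * conj μ) d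
    linear_combination -this
  have e2' : conj p + conj μ * conj c + conj μ ^ d * c + conj μ ^ (d + 1) * p = 0 := by
    have := congrArg conj e2
    simpa using this
  calc (conj c + conj p * κ) * conj (conj c + conj p * μ) *
      (∑ s ∈ range d, (κ * conj μ) ^ s) * (1 - κ * conj μ)
      = (conj c + conj p * κ) * conj (conj c + conj p * μ) * (1 - (κ * conj μ) ^ d) := by
        rw [mul_assoc, h3]
    _ = (c * conj c - p * conj p) * (1 - κ * conj μ) := by
        simp only [map_add, map_mul, Complex.conj_conj]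
        rw [mul_pow]
        have hA : p + c * κ = -(κ ^ d * (conj c + conj p * κ)) := by
          linear_combination e1
        have hB : conj p + conj c * conj μ = -(conj μ ^ d * (c + p * conj μ)) := by
          linear_combination e2'
        have hAB : (p + c * κ) * (conj p + conj c * conj μ) =
            κ ^ d * (conj c + conj p * κ) * (conj μ ^ d * (c + p * conj μ)) := by
          rw [hA, hB]; ring
        linear_combination hAB

theorem alg_ne (d : ℕ) (hd : 2 ≤ d) (κ μ c p : ℂ) (h1 : ‖κ‖ < 1) (h2 : ‖μ‖ < 1) (hne : κ ≠ μ)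
    (e1 : p + κ * c + κ ^ d * conj c + κ ^ (d + 1) * conj p = 0)
    (e2 : p + μ * c + μ ^ d * conj c + μ ^ (d + 1) * conj p = 0) : c = 0 ∧ p = 0 := by
  set B := conj c + conj p * κ with hB
  set B' := conj c + conj p * μ with hB'
  have g11 := gram d κ κ c p h1 h1 e1 e1
  have g12 := gram d κ μ c p h1 h2 e1 e2
  have g21 := gram d μ κ c p h2 h1 e2 e1
  have g22 := gram d μ μ c p h2 h2 e2 e2
  rw [← hB] at g11 g12 g21
  rw [← hB'] at g12 g21 g22
  have hsum : ∑ s ∈ range d, (B * κ ^ s - B' * μ ^ s) * conj (B * κ ^ s - B' * μ ^ s) = 0 := by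
    have : ∑ s ∈ range d, (B * κ ^ s - B' * μ ^ s) * conj (B * κ ^ s - B' * μ ^ s) =
        B * conj B * (∑ s ∈ range d, (κ * conj κ) ^ s) - B * conj B' * (∑ s ∈ range d, (κ * conj μ) ^ s)
        - B' * conj B * (∑ s ∈ range d, (μ * conj κ) ^ s)
        + B' * conj B' * (∑ s ∈ range d, (μ * conj μ) ^ s) := by
      simp only [Finset.mul_sum]
      rw [← Finset.sum_sub_distrib, ← Finset.sum_sub_distrib, ← Finset.sum_add_distrib]
      apply Finset.sum_congr rfl
      intro s _
      simp only [map_sub, map_mul, map_pow, mul_pow]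
      ring
    rw [this, g11, g12, g21, g22]; ring
  have hzero : ∀ s ∈ range d, B * κ ^ s - B' * μ ^ s = 0 := by
    have h3 : ∑ s ∈ range d, ‖B * κ ^ s - B' * μ ^ s‖ ^ 2 = 0 := by
      have h4 : ((∑ s ∈ range d, ‖B * κ ^ s - B' * μ ^ s‖ ^ 2 : ℝ) : ℂ) = 0 := by
        push_cast
        rw [← hsum]
        apply Finset.sum_congr rfl
        intro s _
        rw [Complex.mul_conj, Complex.normSq_eq_norm_sq]
        push_cast; rfl
      exact_mod_cast h4
    intro s hs
    have := (Finset.sum_eq_zero_iff_of_nonneg (fun i _ => by positivity)).1 h3 s hs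
    simpa using this
  have z0 := hzero 0 (by simp; omega)
  have z1 := hzero 1 (by simp; omega)
  simp only [pow_zero, mul_one, pow_one] at z0 z1
  have hBB : B = B' := sub_eq_zero.1 z0
  have hB0 : B = 0 := by
    rw [← hBB, ← mul_sub] at z1
    rcases mul_eq_zero.1 z1 with h | h
    · exact h
    · exact absurd (sub_eq_zero.1 h) hne
  have hp : conj p * (κ - μ) = 0 := by
    have : B - B' = 0 := by rw [← hBB]; ring
    rw [hB, hB'] at this
    linear_combination this
  have hp0 : p = 0 := by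
    rcases mul_eq_zero.1 hp with h | h
    · simpa using h
    · exact absurd (sub_eq_zero.1 h) hne
  refine ⟨?_, hp0⟩
  rw [hB, hp0] at hB0
  simpa using hB0

theorem real_ineq (d : ℕ) (hd : 2 ≤ d) (r : ℝ) (h0 : 0 ≤ r) (h1 : r < 1) :
    (d : ℝ) * r ^ (d - 1) < ∑ s ∈ range d, (r ^ s) ^ 2 := by
  have hrefl : ∑ s ∈ range d, (r ^ (d - 1 - s)) ^ 2 = ∑ s ∈ range d, (r ^ s) ^ 2 :=
    Finset.sum_range_reflect (fun s => (r ^ s) ^ 2) d
  have hpos : 0 < ∑ s ∈ range d, (r ^ s - r ^ (d - 1 - s)) ^ 2 := by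
    apply Finset.sum_pos' (fun i _ => by positivity)
    refine ⟨0, by simp; omega, ?_⟩
    have : r ^ (d - 1) < 1 := pow_lt_one₀ h0 h1 (by omega)
    have h2 : (0:ℝ) < r ^ 0 - r ^ (d - 1 - 0) := by simp; exact this
    positivity
  have hexp : ∑ s ∈ range d, (r ^ s - r ^ (d - 1 - s)) ^ 2 =
      2 * ∑ s ∈ range d, (r ^ s) ^ 2 - 2 * (d * r ^ (d - 1)) := by
    have : ∀ s ∈ range d, (r ^ s - r ^ (d - 1 - s)) ^ 2 =
        (r ^ s) ^ 2 + (r ^ (d - 1 - s)) ^ 2 - 2 * r ^ (d - 1) := by
      intro s hs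
      have hs' : s < d := Finset.mem_range.1 hs
      have : r ^ s * r ^ (d - 1 - s) = r ^ (d - 1) := by
        rw [← pow_add]; congr 1; omega
      linear_combination (-2) * this
    rw [Finset.sum_congr rfl this, Finset.sum_sub_distrib, Finset.sum_add_distrib, hrefl]
    simp
    ring
  linarith

theorem alg_eq (d : ℕ) (hd : 2 ≤ d) (κ c p : ℂ) (h1 : ‖κ‖ < 1)
    (e1 : p + κ * c + κ ^ d * conj c + κ ^ (d + 1) * conj p = 0)
    (e2 : c + d * κ ^ (d - 1) * conj c + (d + 1) * κ ^ d * conj p = 0) : c = 0 ∧ p = 0 := by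
  set B := conj c + conj p * κ with hB
  have g := gram d κ κ c p h1 h1 e1 e1
  rw [← hB] at g
  have hκ : κ ^ d = κ ^ (d - 1) * κ := by
    rw [← pow_succ]; congr 1; omega
  have hD : B * (c + κ ^ d * conj p) = c * conj c - p * conj p := by
    have hA : p + c * κ = -(κ ^ d * B) := by rw [hB]; linear_combination e1
    have : B * c - conj p * (p + c * κ) = c * conj c - p * conj p := by rw [hB]; ring
    rw [← this, hA]; ring
  have hd' : c + κ ^ d * conj p = -(d * κ ^ (d - 1) * B) := by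
    rw [hB]; linear_combination e2 - d * conj p * hκ
  rw [hd'] at hD
  have hEq : B * conj B * ∑ s ∈ range d, (κ * conj κ) ^ s = -(d * κ ^ (d - 1) * B * B) := by
    rw [g, ← hD]; ring
  have hnorm := congrArg norm hEq
  have hs : ∑ s ∈ range d, (κ * conj κ) ^ s = ((∑ s ∈ range d, (‖κ‖ ^ s) ^ 2 : ℝ) : ℂ) := by
    push_cast
    apply Finset.sum_congr rfl
    intro s _
    rw [Complex.mul_conj, Complex.normSq_eq_norm_sq]
    push_cast; ring
  rw [hs] at hnorm
  have hnn : (0:ℝ) ≤ ∑ s ∈ range d, (‖κ‖ ^ s) ^ 2 := Finset.sum_nonneg fun i _ => by positivity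
  simp only [norm_mul, norm_neg, Complex.norm_conj, Complex.norm_real, norm_pow,
    Real.norm_of_nonneg hnn, Complex.norm_natCast] at hnorm
  have hlt := real_ineq d hd ‖κ‖ (norm_nonneg _) h1
  have hB0 : B = 0 := by
    by_contra hne
    have hBpos : 0 < ‖B‖ := norm_pos_iff.2 hne
    have : ‖B‖ * ‖B‖ * (∑ s ∈ range d, (‖κ‖ ^ s) ^ 2 - d * ‖κ‖ ^ (d - 1)) = 0 := by
      linear_combination hnorm
    have h3 : 0 < ‖B‖ * ‖B‖ * (∑ s ∈ range d, (‖κ‖ ^ s) ^ 2 - d * ‖κ‖ ^ (d - 1)) := by
      apply mul_pos (mul_pos hBpos hBpos); linarith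
    linarith
  have hA : p + c * κ = 0 := by
    have : p + c * κ = -(κ ^ d * B) := by rw [hB]; linear_combination e1
    rw [this, hB0]; simp
  have hc : ‖c‖ = ‖p‖ * ‖κ‖ := by
    have : conj c = -(conj p * κ) := by
      rw [hB] at hB0; linear_combination hB0
    have := congrArg norm this
    simpa using this
  have hp : ‖p‖ = ‖c‖ * ‖κ‖ := by
    have : p = -(c * κ) := by linear_combination hA
    have := congrArg norm this
    simpa using this
  have hk := norm_nonneg κ
  have hp0 : ‖p‖ = 0 := by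
    rw [hc] at hp
    have h5 : ‖p‖ * (1 - ‖κ‖ * ‖κ‖) = 0 := by linear_combination hp
    rcases mul_eq_zero.1 h5 with h | h
    · exact h
    · nlinarith
  have hc0 : ‖c‖ = 0 := by rw [hc, hp0]; simp
  exact ⟨norm_eq_zero.1 hc0, norm_eq_zero.1 hp0⟩

end Pool.Agent.K3h53.BE
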