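import Mathlib

set_option autoImplicit false

/-! The Schwarz function of an ellipse and the functional equation it gives. -/

namespace Pool.Agent.K3h53.BE

open Complex Filter Topology Set ComplexConjugate

/-- the ellipse through `z0 + a ζ + b / ζ` -/
noncomputable def Zf (z0 : ℂ) (a : ℝ) (b : ℂ) (ζ : ℂ) : ℂ := z0 + a * ζ + b / ζ

/-- the conjugate parametrisation -/
noncomputable def Wf (z0 : ℂ) (a : ℝ) (b : ℂ) (ζ : ℂ) : ℂ := conj z0 + conj b * ζ + a / ζ

theorem conj_Zf (z0 : ℂ) (a : ℝ) (b ζ : ℂ) (h : ‖ζ‖ = 1) : conj (Zf z0 a b ζ) = Wf z0 a b ζ := by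
  have h1 : ζ⁻¹ = conj ζ := Complex.inv_eq_conj h
  have h2 : conj ζ⁻¹ = ζ := by rw [h1, Complex.conj_conj]
  simp only [Zf, Wf, map_add, map_mul, Complex.conj_ofReal, div_eq_mul_inv, h2, ← h1]
  ring

theorem rel (z0 : ℂ) (a : ℝ) (b : ℂ) (f g : ℂ → ℂ) (hf : Differentiable ℂ f)
    (hg : Differentiable ℂ g)
    (h : ∀ ζ : ℂ, ‖ζ‖ = 1 → (conj (Zf z0 a b ζ) * f (Zf z0 a b ζ) + g (Zf z0 a b ζ)).re = 0)
    (ζ : ℂ) (hζ : ζ ≠ 0) :
    Wf z0 a b ζ * f (Zf z0 a b ζ) + g (Zf z0 a b ζ) + Zf z0 a b ζ * conj (f (conj (Wf z0 a b ζ)))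
      + conj (g (conj (Wf z0 a b ζ))) = 0 := by
  set F : ℂ → ℂ := fun ζ => Wf z0 a b ζ * f (Zf z0 a b ζ) + g (Zf z0 a b ζ) +
    Zf z0 a b ζ * conj (f (conj (Wf z0 a b ζ))) + conj (g (conj (Wf z0 a b ζ))) with hF
  have hZd : ∀ ζ : ℂ, ζ ≠ 0 → DifferentiableAt ℂ (Zf z0 a b) ζ := by
    intro ζ hζ
    unfold Zf
    fun_prop (disch := assumption)
  have hWd : ∀ ζ : ℂ, ζ ≠ 0 → DifferentiableAt ℂ (Wf z0 a b) ζ := by
    intro ζ hζ
    unfold Wf
    fun_prop (disch := assumption)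
  have hstar : ∀ k : ℂ → ℂ, Differentiable ℂ k → Differentiable ℂ (fun w => conj (k (conj w))) := by
    intro k hk w
    have := (hk (conj w)).conj_conj
    rw [Complex.conj_conj] at this
    exact this
  have hfs := hstar f hf
  have hgs := hstar g hg
  have hFd : DifferentiableOn ℂ F {0}ᶜ := by
    intro ζ hζ
    have h1 := hZd ζ hζ
    have h2 := hWd ζ hζ
    apply DifferentiableAt.differentiableWithinAt
    have h3 : DifferentiableAt ℂ (fun ζ => conj (f (conj (Wf z0 a b ζ)))) ζ :=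
      DifferentiableAt.comp (g := fun w => conj (f (conj w))) ζ (hfs _) h2
    have h4 : DifferentiableAt ℂ (fun ζ => conj (g (conj (Wf z0 a b ζ)))) ζ :=
      DifferentiableAt.comp (g := fun w => conj (g (conj w))) ζ (hgs _) h2
    exact (((h2.mul ((hf _).comp ζ h1)).add ((hg _).comp ζ h1)).add (h1.mul h3)).add h4
  have hFa : AnalyticOnNhd ℂ F {0}ᶜ := hFd.analyticOnNhd isOpen_compl_singleton
  have hpre : IsPreconnected ({0}ᶜ : Set ℂ) :=
    (isConnected_compl_singleton_of_one_lt_rank (by simp) 0).isPreconnected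
  have hzero : ∀ ζ : ℂ, ‖ζ‖ = 1 → F ζ = 0 := by
    intro ζ hζ
    have h1 := h ζ hζ
    have h2 := conj_Zf z0 a b ζ hζ
    simp only [hF]
    rw [← h2, Complex.conj_conj]
    set Z := Zf z0 a b ζ
    have h3 : conj Z * f Z + g Z + Z * conj (f Z) + conj (g Z) =
        (conj Z * f Z + g Z) + conj (conj Z * f Z + g Z) := by
      simp only [map_add, map_mul, Complex.conj_conj]; ring
    rw [h3, Complex.add_conj, h1]; simp
  have hfreq : ∃ᶠ z in 𝓝[≠] (1:ℂ), F z = 0 := by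
    have htend : Tendsto (fun t : ℝ => Complex.exp (t * I)) (𝓝[≠] 0) (𝓝[≠] 1) := by
      apply tendsto_nhdsWithin_of_tendsto_nhds_of_eventually_within
      · have : Tendsto (fun t : ℝ => Complex.exp (t * I)) (𝓝 0) (𝓝 (Complex.exp ((0:ℝ) * I))) := by
          apply Continuous.tendsto
          fun_prop
        simp only [ofReal_zero, zero_mul, Complex.exp_zero] at this
        exact this.mono_left nhdsWithin_le_nhds
      · have h1 : ∀ᶠ t : ℝ in 𝓝[≠] 0, t ∈ Ioo (-1:ℝ) 1 :=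
          nhdsWithin_le_nhds (Ioo_mem_nhds (by norm_num) (by norm_num))
        filter_upwards [h1, self_mem_nhdsWithin] with t ht1 ht2
        intro h3
        have h3' : Complex.exp (t * I) = 1 := h3
        have h4 := congrArg Complex.im h3'
        rw [Complex.exp_ofReal_mul_I_im] at h4
        simp at h4
        have h5 : t = 0 := by
          have hpi := Real.pi_gt_three
          rcases lt_trichotomy t 0 with hlt | heq | hgt
          · have : Real.sin t < 0 := Real.sin_neg_of_neg_of_neg_pi_lt hlt (by linarith [ht1.1])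
            linarith
          · exact heq
          · have : 0 < Real.sin t := Real.sin_pos_of_pos_of_lt_pi hgt (by linarith [ht1.2])
            linarith
        exact ht2 h5
    apply htend.frequently
    apply Filter.Eventually.frequently
    filter_upwards with t
    exact hzero _ (Complex.norm_exp_ofReal_mul_I t)
  exact hFa.eqOn_zero_of_preconnected_of_frequently_eq_zero hpre (by simp) hfreq hζ

theorem exists_zeta (z0 : ℂ) (a : ℝ) (ha : 0 < a) (b z : ℂ) (hz : z ≠ z0) :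
    ∃ ζ : ℂ, ζ ≠ 0 ∧ Zf z0 a b ζ = z ∧ ‖z - z0‖ ≤ 2 * a * ‖ζ‖ := by
  have ha' : (a:ℂ) ≠ 0 := by exact_mod_cast ha.ne'
  obtain ⟨s, hs⟩ := IsAlgClosed.exists_pow_nat_eq ((z - z0) ^ 2 - 4 * a * b) (n := 2) (by norm_num)
  have hw : z - z0 ≠ 0 := sub_ne_zero.2 hz
  have key : ∀ t : ℂ, t ^ 2 = (z - z0) ^ 2 - 4 * a * b → ‖z - z0‖ ≤ ‖z - z0 + t‖ →
      ∃ ζ : ℂ, ζ ≠ 0 ∧ Zf z0 a b ζ = z ∧ ‖z - z0‖ ≤ 2 * a * ‖ζ‖ := by
    intro t ht hle
    have hne : z - z0 + t ≠ 0 := by
      intro h0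
      rw [h0, norm_zero] at hle
      exact hw (norm_le_zero_iff.1 hle)
    refine ⟨(z - z0 + t) / (2 * a), div_ne_zero hne (mul_ne_zero two_ne_zero ha'), ?_, ?_⟩
    · unfold Zf
      field_simp
      linear_combination ht
    · rw [norm_div, norm_mul]
      simp only [Complex.norm_ofNat, Complex.norm_real, Real.norm_of_nonneg ha.le]
      have h2 : 2 * a * (‖z - z0 + t‖ / (2 * a)) = ‖z - z0 + t‖ := by field_simp
      rw [h2]; exact hle
  by_cases hle : ‖z - z0‖ ≤ ‖z - z0 + s‖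
  · exact key s hs hle
  · refine key (-s) (by rw [neg_sq, hs]) ?_
    push Not at hle
    have h1 : ‖(z - z0 + s) + (z - z0 + -s)‖ ≤ ‖z - z0 + s‖ + ‖z - z0 + -s‖ := norm_add_le _ _
    have h2 : (z - z0 + s) + (z - z0 + -s) = 2 * (z - z0) := by ring
    rw [h2, norm_mul] at h1
    simp only [Complex.norm_ofNat] at h1
    linarith

end Pool.Agent.K3h53.BE
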