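import Mathlib

set_option autoImplicit false

/-! Goursat's representation of entire biharmonic functions of the plane. -/

namespace Pool.Agent.K3h53.BE

open Complex Filter Topology Set ComplexConjugate InnerProductSpace Laplacian

theorem hasFDerivAt_conj_mul (k k' : ℂ → ℂ) (hk : ∀ z, HasDerivAt k (k' z) z) (z : ℂ) :
    ∃ L : ℂ →L[ℝ] ℂ, HasFDerivAt (fun z => conj z * k z) L z ∧
      ∀ v, L v = conj z * (k' z * v) + k z * conj v := by
  have h1 : HasFDerivAt (𝕜 := ℝ) (fun z : ℂ => conj z) (conjCLE : ℂ →L[ℝ] ℂ) z :=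
    conjCLE.hasFDerivAt
  have h2 : HasFDerivAt (𝕜 := ℝ) k _ z := (hk z).hasFDerivAt.restrictScalars ℝ
  refine ⟨_, h1.mul h2, ?_⟩
  intro v
  simp [mul_comm]

theorem hasFDerivAt_hol (k k' : ℂ → ℂ) (hk : ∀ z, HasDerivAt k (k' z) z) (z : ℂ) :
    ∃ L : ℂ →L[ℝ] ℂ, HasFDerivAt k L z ∧ ∀ v, L v = k' z * v := by
  have h2 : HasFDerivAt (𝕜 := ℝ) k _ z := (hk z).hasFDerivAt.restrictScalars ℝ
  refine ⟨_, h2, ?_⟩
  intro v
  simp [mul_comm]

theorem second (k k' k'' : ℂ → ℂ) (hk : ∀ z, HasDerivAt k (k' z) z)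
    (hk' : ∀ z, HasDerivAt k' (k'' z) z) (hC : ContDiff ℝ 2 (fun z => conj z * k z)) (z v : ℂ) :
    iteratedFDeriv ℝ 2 (fun z => conj z * k z) z ![v, v] =
      conj z * (k'' z * v * v) + 2 * (k' z * v * conj v) := by
  rw [iteratedFDeriv_two_apply]
  simp only [Matrix.cons_val_zero, Matrix.cons_val_one]
  have h1 : DifferentiableAt ℝ (fderiv ℝ (fun z => conj z * k z)) z :=
    (hC.fderiv_right (m := 1) (by norm_num)).differentiable one_ne_zero z
  have h2 : fderiv ℝ (fderiv ℝ (fun z => conj z * k z)) z v v =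
      fderiv ℝ (fun y => fderiv ℝ (fun z => conj z * k z) y v) z v := by
    rw [fderiv_clm_apply h1 (by fun_prop)]
    simp
  rw [h2]
  have h3 : (fun y => fderiv ℝ (fun z => conj z * k z) y v) =
      fun y => conj y * (k' y * v) + k y * conj v := by
    funext y
    obtain ⟨L, hL, hLv⟩ := hasFDerivAt_conj_mul k k' hk y
    rw [hL.fderiv, hLv]
  rw [h3]
  obtain ⟨L₁, hL₁, hLv₁⟩ := hasFDerivAt_conj_mul (fun y => k' y * v) (fun y => k'' y * v)
    (fun y => (hk' y).mul_const v) z
  obtain ⟨L₂, hL₂, hLv₂⟩ := hasFDerivAt_hol (fun y => k y * conj v) (fun y => k' y * conj v)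
    (fun y => (hk y).mul_const _) z
  have hsum : HasFDerivAt (fun y => conj y * (k' y * v) + k y * conj v) (L₁ + L₂) z := hL₁.add hL₂
  rw [hsum.fderiv, ContinuousLinearMap.add_apply, hLv₁, hLv₂]
  ring

theorem goursat (u : ℂ → ℝ) (hu : ContDiff ℝ 4 u) (h : ∀ z, Δ (Δ u) z = 0) :
    ∃ f g : ℂ → ℂ, Differentiable ℂ f ∧ Differentiable ℂ g ∧
      ∀ z, u z = (conj z * f z + g z).re := by
  set v : ℂ → ℝ := Δ u with hv
  have hvC : ContDiff ℝ 2 v := by
    have h1 : v = fun x => fderiv ℝ (fderiv ℝ u) x 1 1 + fderiv ℝ (fderiv ℝ u) x I I := by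
      rw [hv, laplacian_eq_iteratedFDeriv_complexPlane]
      funext x
      simp [iteratedFDeriv_two_apply]
    rw [h1]
    have h2 : ContDiff ℝ 2 (fderiv ℝ (fderiv ℝ u)) :=
      (hu.fderiv_right (m := 3) (by norm_num)).fderiv_right (m := 2) (by norm_num)
    exact ((h2.clm_apply contDiff_const).clm_apply contDiff_const).add
      ((h2.clm_apply contDiff_const).clm_apply contDiff_const)
  have hvH : HarmonicOnNhd v univ := by
    intro x _
    refine ⟨hvC.contDiffAt, ?_⟩
    filter_upwards with y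
    exact h y
  obtain ⟨F, hF, hFv⟩ := hvH.exists_analyticOnNhd_univ_re_eq
  have hFd : Differentiable ℂ F := fun z => (hF z (mem_univ z)).differentiableAt
  obtain ⟨G, hG⟩ := hFd.isExactOn_univ
  have hGd : ∀ z, HasDerivAt G (F z) z := fun z => hG z (mem_univ z)
  have hGdiff : Differentiable ℂ G := fun z => (hGd z).differentiableAt
  set f : ℂ → ℂ := fun z => G z / 4 with hf
  have hfd : ∀ z, HasDerivAt f (F z / 4) z := fun z => (hGd z).div_const 4
  have hfdiff : Differentiable ℂ f := fun z => (hfd z).differentiableAt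
  set H : ℂ → ℂ := fun z => conj z * f z with hH
  have hfC : ContDiff ℝ 2 f := hfdiff.contDiff.restrict_scalars ℝ
  have hHC : ContDiff ℝ 2 H := by
    have hc : ContDiff ℝ 2 (fun z : ℂ => conj z) := conjCLE.contDiff
    exact hc.mul hfC
  have hLap : ∀ z, Δ H z = F z := by
    intro z
    rw [laplacian_eq_iteratedFDeriv_complexPlane]
    simp only
    rw [second f (fun z => F z / 4) (fun z => deriv F z / 4) hfd
      (fun z => (hFd z).hasDerivAt.div_const 4) hHC z 1,
      second f (fun z => F z / 4) (fun z => deriv F z / 4) hfd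
      (fun z => (hFd z).hasDerivAt.div_const 4) hHC z I]
    simp only [map_one, Complex.conj_I]
    linear_combination (conj z * (deriv F z / 4) - 2 * (F z / 4)) * Complex.I_mul_I
  set w : ℂ → ℝ := fun z => (H z).re with hw
  have hwC : ContDiff ℝ 2 w := reCLM.contDiff.comp hHC
  have hwLap : ∀ z, Δ w z = v z := by
    intro z
    have h1 : w = (reCLM : ℂ → ℝ) ∘ H := rfl
    rw [h1, (hHC.contDiffAt (x := z)).laplacian_CLM_comp_left (l := reCLM)]
    have h2 := congrFun hFv z
    simp only [Function.comp_apply, hLap, reCLM_apply]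
    exact h2
  have hdiff : HarmonicOnNhd (u - w) univ := by
    intro x _
    have huC : ContDiff ℝ 2 u := hu.of_le (by norm_num)
    refine ⟨huC.contDiffAt.sub hwC.contDiffAt, ?_⟩
    filter_upwards with y
    rw [(huC.contDiffAt (x := y)).laplacian_sub (hwC.contDiffAt (x := y)), hwLap, hv]
    simp
  obtain ⟨g, hg, hgre⟩ := hdiff.exists_analyticOnNhd_univ_re_eq
  refine ⟨f, g, hfdiff, fun z => (hg z (mem_univ z)).differentiableAt, fun z => ?_⟩
  have h1 := congrFun hgre z
  simp only [Pi.sub_apply, hw] at h1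
  rw [Complex.add_re, h1]
  simp [hH]

end Pool.Agent.K3h53.BE
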