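import Mathlib

set_option autoImplicit false

/-! Growth of entire functions: a scaling inequality implies polynomial growth, and an entire function of
polynomial growth is a polynomial. -/

namespace Pool.Agent.K3h53.BE

open Complex Finset Metric Set

theorem growth (H : ℂ → ℝ) (hc : Continuous H) (hnn : ∀ z, 0 ≤ H z) (θ K R : ℝ) (hθ0 : 0 < θ)
    (hθ1 : θ < 1) (hK : 0 ≤ K) (hR : 0 < R)
    (h : ∀ z, R ≤ ‖z‖ → ∀ S, (∀ w, ‖w‖ ≤ θ * ‖z‖ → H w ≤ S) → H z ≤ K * S) :
    ∃ A : ℕ, ∃ B : ℝ, 0 ≤ B ∧ ∀ z, R ≤ ‖z‖ → H z ≤ B * ‖z‖ ^ A := by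
  obtain ⟨A, hA⟩ : ∃ A : ℕ, K * θ ^ A ≤ 1 := by
    obtain ⟨A, hA⟩ := exists_pow_lt_of_lt_one (show (0:ℝ) < 1 / (K + 1) by positivity) hθ1
    refine ⟨A, ?_⟩
    have h1 : K * θ ^ A ≤ (K + 1) * (1 / (K + 1)) := by
      apply mul_le_mul (by linarith) hA.le (by positivity) (by positivity)
    rwa [mul_one_div_cancel (by positivity)] at h1
  obtain ⟨S₀, hS₀⟩ : ∃ S₀, ∀ z ∈ closedBall (0:ℂ) R, H z ≤ S₀ := by
    obtain ⟨C, hC⟩ := (isCompact_closedBall (0:ℂ) R).exists_bound_of_continuousOn hc.continuousOn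
    exact ⟨C, fun z hz => (le_abs_self _).trans (hC z hz)⟩
  have hS0nn : 0 ≤ S₀ := (hnn 0).trans (hS₀ 0 (by simp; exact hR.le))
  have hθR : 0 < θ * R := by positivity
  set B := S₀ / (θ * R) ^ A with hB
  have hB0 : 0 ≤ B := by positivity
  have hBS : B * (θ * R) ^ A = S₀ := by rw [hB]; field_simp
  have base : ∀ z, θ * R ≤ ‖z‖ → ‖z‖ ≤ R → H z ≤ B * ‖z‖ ^ A := by
    intro z h1 h2
    have h3 : H z ≤ S₀ := hS₀ z (by simpa using h2)
    rw [← hBS] at h3
    refine h3.trans ?_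
    gcongr
  have claim : ∀ n : ℕ, ∀ z, θ * R ≤ ‖z‖ → ‖z‖ ≤ R * (θ⁻¹) ^ n → H z ≤ B * ‖z‖ ^ A := by
    intro n
    induction n with
    | zero => intro z h1 h2; exact base z h1 (by simpa using h2)
    | succ n ih =>
      intro z h1 h2
      by_cases hz : ‖z‖ ≤ R
      · exact base z h1 hz
      push Not at hz
      have h3 := h z hz.le (B * (θ * ‖z‖) ^ A) ?_
      · refine h3.trans ?_
        calc K * (B * (θ * ‖z‖) ^ A) = (K * θ ^ A) * (B * ‖z‖ ^ A) := by rw [mul_pow]; ring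
          _ ≤ 1 * (B * ‖z‖ ^ A) := by gcongr
          _ = B * ‖z‖ ^ A := one_mul _
      · intro w hw
        by_cases hw2 : θ * R ≤ ‖w‖
        · refine (ih w hw2 ?_).trans ?_
          · refine hw.trans ?_
            calc θ * ‖z‖ ≤ θ * (R * θ⁻¹ ^ (n + 1)) := by gcongr
              _ = R * θ⁻¹ ^ n := by rw [pow_succ]; field_simp
          · gcongr
        · push Not at hw2
          have h4 : H w ≤ S₀ := hS₀ w (by
            have : θ * R ≤ R := by nlinarith
            simp; linarith)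
          rw [← hBS] at h4
          refine h4.trans ?_
          gcongr
  refine ⟨A, B, hB0, fun z hz => ?_⟩
  obtain ⟨n, hn⟩ := pow_unbounded_of_one_lt (‖z‖ / R) ((one_lt_inv₀ hθ0).2 hθ1)
  refine claim n z ?_ ?_
  · nlinarith
  · rw [div_lt_iff₀ hR] at hn
    linarith

theorem lip {f : ℂ → ℂ} (hf : Differentiable ℂ f) {ρ η S : ℝ} (hη : 0 < η)
    (hS : ∀ w, ‖w‖ ≤ ρ + η → ‖f w‖ ≤ S) (x y : ℂ) (hx : ‖x‖ ≤ ρ) (hy : ‖y‖ ≤ ρ) :
    ‖f x - f y‖ ≤ S / η * ‖x - y‖ := by
  have hconv : Convex ℝ (closedBall (0:ℂ) ρ) := convex_closedBall _ _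
  apply hconv.norm_image_sub_le_of_norm_deriv_le (𝕜 := ℂ) (fun w _ => hf w) ?_
    (by simpa using hy) (by simpa using hx)
  intro w hw
  apply norm_deriv_le_of_forall_mem_sphere_norm_le hη hf.diffContOnCl
  intro v hv
  apply hS
  have h1 : ‖v - w‖ = η := by simpa using mem_sphere_iff_norm.1 hv
  have h2 : ‖w‖ ≤ ρ := by simpa using hw
  calc ‖v‖ = ‖w + (v - w)‖ := by ring_nf
    _ ≤ ‖w‖ + ‖v - w‖ := norm_add_le _ _
    _ ≤ ρ + η := by linarith

theorem maxmod {f : ℂ → ℂ} (hf : Differentiable ℂ f) {r S : ℝ} (hr : 0 < r)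
    (hS : ∀ w, ‖w‖ = r → ‖f w‖ ≤ S) (w : ℂ) (hw : ‖w‖ ≤ r) : ‖f w‖ ≤ S := by
  apply norm_le_of_forall_mem_frontier_norm_le (isBounded_ball (x := (0:ℂ)) (r := r))
    hf.diffContOnCl
  · intro z hz
    rw [frontier_ball _ hr.ne'] at hz
    exact hS z (by simpa using hz)
  · rw [closure_ball _ hr.ne']
    simpa using hw

theorem poly_of_growth {h : ℂ → ℂ} (hh : Differentiable ℂ h) {A : ℕ} {B R : ℝ} (hB : 0 ≤ B)
    (hR : ∀ z, R ≤ ‖z‖ → ‖h z‖ ≤ B * ‖z‖ ^ A) :
    ∃ P : Polynomial ℂ, ∀ z, h z = P.eval z := by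
  have hder : ∀ n, A < n → iteratedDeriv n h 0 = 0 := by
    intro n hn
    have hbound : ∀ r : ℝ, max R 1 ≤ r → ‖iteratedDeriv n h 0‖ ≤ n.factorial * B / r := by
      intro r hr
      have hr1 : 1 ≤ r := (le_max_right _ _).trans hr
      have hr0 : 0 < r := by linarith
      have h1 := norm_iteratedDeriv_le_of_forall_mem_sphere_norm_le (c := 0) (R := r)
        (C := B * r ^ A) (f := h) n hr0 hh.diffContOnCl (by
          intro z hz
          have hz' : ‖z‖ = r := by simpa using hz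
          rw [← hz']
          exact hR z (by rw [hz']; exact (le_max_left _ _).trans hr))
      refine h1.trans ?_
      rw [div_le_div_iff₀ (by positivity) hr0]
      have h2 : r ^ A * r ≤ r ^ n := by
        rw [← pow_succ]
        exact pow_le_pow_right₀ hr1 hn
      calc (n.factorial : ℝ) * (B * r ^ A) * r = (n.factorial * B) * (r ^ A * r) := by ring
        _ ≤ (n.factorial * B) * r ^ n := by gcongr
    have : ‖iteratedDeriv n h 0‖ ≤ 0 := by
      apply le_of_forall_pos_le_add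
      intro ε hε
      rw [zero_add]
      set r := max (max R 1) (n.factorial * B / ε) with hr
      have h1 := hbound r (le_max_left _ _)
      have hr0 : 0 < r := lt_of_lt_of_le one_pos ((le_max_right _ _).trans (le_max_left _ _))
      refine h1.trans ?_
      rw [div_le_iff₀ hr0]
      have : n.factorial * B / ε ≤ r := le_max_right _ _
      rw [div_le_iff₀ hε] at this
      linarith
    simpa using this
  refine ⟨∑ n ∈ range (A + 1), Polynomial.C ((n.factorial : ℂ)⁻¹ * iteratedDeriv n h 0) *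
    Polynomial.X ^ n, fun z => ?_⟩
  rw [← taylorSeries_eq_of_entire' (c := 0) (z := z) hh, tsum_eq_sum (s := range (A + 1))]
  · rw [Polynomial.eval_finsetSum]
    simp
  · intro n hn
    rw [Finset.mem_range, not_lt] at hn
    rw [hder n (by omega)]
    simp

end Pool.Agent.K3h53.BE
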