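import Mathlib
import Pool.Agent.K3h53.BE.Alg

set_option autoImplicit false

/-! Polynomial solutions of the two functional equations are trivial. -/

namespace Pool.Agent.K3h53.BE

open Complex Filter Topology Set ComplexConjugate Bornology

theorem lim_inv : Tendsto (fun z : ℂ => z⁻¹) (cobounded ℂ) (𝓝 0) :=
  tendsto_inv₀_cobounded

theorem lim_eval (R : Polynomial ℂ) (m : ℕ) (hR : R.natDegree ≤ m) (s : ℂ → ℂ) (κ : ℂ)
    (hs : Tendsto (fun z => s z / z) (cobounded ℂ) (𝓝 κ)) :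
    Tendsto (fun z => R.eval (s z) / z ^ m) (cobounded ℂ) (𝓝 (R.coeff m * κ ^ m)) := by
  have h1 : Tendsto (fun z => ∑ k ∈ Finset.range (m + 1), R.coeff k * ((s z / z) ^ k * (z⁻¹) ^ (m - k)))
      (cobounded ℂ) (𝓝 (∑ k ∈ Finset.range (m + 1), R.coeff k * (κ ^ k * 0 ^ (m - k)))) := by
    apply tendsto_finsetSum
    intro k _
    exact ((hs.pow k).mul (lim_inv.pow (m - k))).const_mul _
  have h2 : ∑ k ∈ Finset.range (m + 1), R.coeff k * (κ ^ k * 0 ^ (m - k)) = R.coeff m * κ ^ m := by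
    rw [Finset.sum_range_succ, Finset.sum_eq_zero]
    · simp
    · intro k hk
      have : m - k ≠ 0 := by
        have := Finset.mem_range.1 hk
        omega
      simp [this]
  rw [h2] at h1
  refine h1.congr' ?_
  filter_upwards [eventually_ne_cobounded (0:ℂ)] with z hz
  rw [Polynomial.eval_eq_sum_range' (Nat.lt_succ_of_le hR), Finset.sum_div]
  apply Finset.sum_congr rfl
  intro k hk
  have hk' : k ≤ m := Nat.lt_succ_iff.1 (Finset.mem_range.1 hk)
  have h3 : z ^ m = z ^ k * z ^ (m - k) := by rw [← pow_add]; congr 1; omega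
  rw [h3, div_pow, inv_pow]
  field_simp

theorem eval_sub_eval (R : Polynomial ℂ) (n : ℕ) (hR : R.natDegree ≤ n + 1) (x y : ℂ) :
    R.eval x - R.eval y = ∑ k ∈ Finset.range (n + 1), R.coeff (k + 1) *
      ((∑ i ∈ Finset.range (k + 1), x ^ i * y ^ (k - i)) * (x - y)) := by
  rw [Polynomial.eval_eq_sum_range' (Nat.lt_succ_of_le hR),
    Polynomial.eval_eq_sum_range' (Nat.lt_succ_of_le hR), ← Finset.sum_sub_distrib,
    Nat.succ_eq_add_one, Finset.sum_range_succ']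
  simp only [pow_zero, mul_one, sub_self, add_zero]
  apply Finset.sum_congr rfl
  intro k _
  have := (Commute.all x y).geom_sum₂_mul (k + 1)
  simp only [Nat.add_sub_cancel] at this
  rw [this]
  ring

theorem lim_dd (R : Polynomial ℂ) (n : ℕ) (hR : R.natDegree ≤ n + 1) (s t : ℂ → ℂ) (κ : ℂ)
    (hs : Tendsto (fun z => s z / z) (cobounded ℂ) (𝓝 κ))
    (ht : Tendsto (fun z => t z / z) (cobounded ℂ) (𝓝 κ))
    (hne : ∀ᶠ z in cobounded ℂ, s z ≠ t z) :
    Tendsto (fun z => (R.eval (s z) - R.eval (t z)) / (s z - t z) / z ^ n) (cobounded ℂ)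
      (𝓝 ((n + 1) * R.coeff (n + 1) * κ ^ n)) := by
  have h1 : Tendsto (fun z => ∑ k ∈ Finset.range (n + 1), R.coeff (k + 1) *
      ((∑ i ∈ Finset.range (k + 1), (s z / z) ^ i * (t z / z) ^ (k - i)) * (z⁻¹) ^ (n - k)))
      (cobounded ℂ) (𝓝 (∑ k ∈ Finset.range (n + 1), R.coeff (k + 1) *
      ((∑ i ∈ Finset.range (k + 1), κ ^ i * κ ^ (k - i)) * 0 ^ (n - k)))) := by
    apply tendsto_finsetSum
    intro k _
    refine Tendsto.const_mul _ (Tendsto.mul ?_ (lim_inv.pow (n - k)))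
    apply tendsto_finsetSum
    intro i _
    exact (hs.pow i).mul (ht.pow (k - i))
  have h2 : ∑ k ∈ Finset.range (n + 1), R.coeff (k + 1) *
      ((∑ i ∈ Finset.range (k + 1), κ ^ i * κ ^ (k - i)) * 0 ^ (n - k)) =
      (n + 1) * R.coeff (n + 1) * κ ^ n := by
    rw [Finset.sum_range_succ, Finset.sum_eq_zero]
    · have : ∑ i ∈ Finset.range (n + 1), κ ^ i * κ ^ (n - i) = (n + 1) * κ ^ n := by
        rw [Finset.sum_congr rfl (g := fun _ => κ ^ n)]
        · simp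
        · intro i hi
          have := Finset.mem_range.1 hi
          rw [← pow_add]; congr 1; omega
      rw [this]
      simp
      ring
    · intro k hk
      have : n - k ≠ 0 := by
        have := Finset.mem_range.1 hk
        omega
      simp [this]
  rw [h2] at h1
  refine h1.congr' ?_
  filter_upwards [eventually_ne_cobounded (0:ℂ), hne] with z hz hst
  have hst' : s z - t z ≠ 0 := sub_ne_zero.2 hst
  rw [eval_sub_eval R n hR, Finset.sum_div, Finset.sum_div]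
  apply Finset.sum_congr rfl
  intro k hk
  have hk' : k ≤ n := Nat.lt_succ_iff.1 (Finset.mem_range.1 hk)
  have h4 : ∑ i ∈ Finset.range (k + 1), (s z / z) ^ i * (t z / z) ^ (k - i) =
      (∑ i ∈ Finset.range (k + 1), s z ^ i * t z ^ (k - i)) / z ^ k := by
    rw [Finset.sum_div]
    apply Finset.sum_congr rfl
    intro i hi
    have hi' : i ≤ k := Nat.lt_succ_iff.1 (Finset.mem_range.1 hi)
    have h3 : z ^ k = z ^ i * z ^ (k - i) := by rw [← pow_add]; congr 1; omega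
    rw [h3, div_pow, div_pow]
    field_simp
  have h3 : z ^ n = z ^ k * z ^ (n - k) := by rw [← pow_add]; congr 1; omega
  rw [h4, h3, inv_pow]
  field_simp

theorem conj_eval (P : Polynomial ℂ) (w : ℂ) :
    conj (P.eval (conj w)) = (P.map (starRingEnd ℂ)).eval w := by
  rw [Polynomial.eval_map]
  have := Polynomial.eval₂_at_apply (p := P) (starRingEnd ℂ) (conj w)
  rw [Complex.conj_conj] at this
  exact this.symm

theorem lim_id : Tendsto (fun z : ℂ => z / z) (cobounded ℂ) (𝓝 1) := by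
  refine tendsto_const_nhds.congr' ?_
  filter_upwards [eventually_ne_cobounded (0:ℂ)] with z hz
  rw [div_self hz]

theorem lead_rel (S : ℂ → ℂ) (κ : ℂ) (hs : Tendsto (fun z => S z / z) (cobounded ℂ) (𝓝 κ))
    (P Q : Polynomial ℂ) (d : ℕ) (hP : P.natDegree ≤ d) (hQ : Q.natDegree ≤ d + 1)
    (r : ∀ᶠ z in cobounded ℂ, S z * P.eval z + Q.eval z + z * conj (P.eval (conj (S z)))
      + conj (Q.eval (conj (S z))) = 0) :
    Q.coeff (d + 1) + κ * P.coeff d + κ ^ d * conj (P.coeff d)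
      + κ ^ (d + 1) * conj (Q.coeff (d + 1)) = 0 := by
  have h1 : Tendsto (fun z => (S z / z) * (P.eval z / z ^ d) + Q.eval z / z ^ (d + 1)
      + (P.map (starRingEnd ℂ)).eval (S z) / z ^ d
      + (Q.map (starRingEnd ℂ)).eval (S z) / z ^ (d + 1)) (cobounded ℂ)
      (𝓝 (κ * (P.coeff d * 1 ^ d) + Q.coeff (d + 1) * 1 ^ (d + 1)
        + (P.map (starRingEnd ℂ)).coeff d * κ ^ d
        + (Q.map (starRingEnd ℂ)).coeff (d + 1) * κ ^ (d + 1))) :=
    (((hs.mul (lim_eval P d hP _ 1 lim_id)).add (lim_eval Q (d + 1) hQ _ 1 lim_id)).add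
      (lim_eval _ d (Polynomial.natDegree_map_le.trans hP) S κ hs)).add
      (lim_eval _ (d + 1) (Polynomial.natDegree_map_le.trans hQ) S κ hs)
  have h2 : Tendsto (fun z => (S z / z) * (P.eval z / z ^ d) + Q.eval z / z ^ (d + 1)
      + (P.map (starRingEnd ℂ)).eval (S z) / z ^ d
      + (Q.map (starRingEnd ℂ)).eval (S z) / z ^ (d + 1)) (cobounded ℂ) (𝓝 0) := by
    refine tendsto_const_nhds.congr' ?_
    filter_upwards [eventually_ne_cobounded (0:ℂ), r] with z hz hr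
    rw [conj_eval, conj_eval] at hr
    have h3 : (S z / z) * (P.eval z / z ^ d) + Q.eval z / z ^ (d + 1)
      + (P.map (starRingEnd ℂ)).eval (S z) / z ^ d
      + (Q.map (starRingEnd ℂ)).eval (S z) / z ^ (d + 1) =
      (S z * P.eval z + Q.eval z + z * (P.map (starRingEnd ℂ)).eval (S z)
      + (Q.map (starRingEnd ℂ)).eval (S z)) / z ^ (d + 1) := by
      field_simp
      ring
    rw [h3, hr, zero_div]
  have h3 := tendsto_nhds_unique h1 h2
  rw [Polynomial.coeff_map, Polynomial.coeff_map] at h3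
  linear_combination h3

theorem lead_dd (S₁ S₂ : ℂ → ℂ) (κ : ℂ) (hs₁ : Tendsto (fun z => S₁ z / z) (cobounded ℂ) (𝓝 κ))
    (hs₂ : Tendsto (fun z => S₂ z / z) (cobounded ℂ) (𝓝 κ))
    (hne : ∀ᶠ z in cobounded ℂ, S₁ z ≠ S₂ z)
    (P Q : Polynomial ℂ) (n : ℕ) (hP : P.natDegree ≤ n + 1) (hQ : Q.natDegree ≤ n + 1 + 1)
    (r₁ : ∀ᶠ z in cobounded ℂ, S₁ z * P.eval z + Q.eval z + z * conj (P.eval (conj (S₁ z)))
      + conj (Q.eval (conj (S₁ z))) = 0)
    (r₂ : ∀ᶠ z in cobounded ℂ, S₂ z * P.eval z + Q.eval z + z * conj (P.eval (conj (S₂ z)))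
      + conj (Q.eval (conj (S₂ z))) = 0) :
    P.coeff (n + 1) + (n + 1) * κ ^ n * conj (P.coeff (n + 1))
      + (n + 2) * κ ^ (n + 1) * conj (Q.coeff (n + 1 + 1)) = 0 := by
  have h1 : Tendsto (fun z => P.eval z / z ^ (n + 1)
      + ((P.map (starRingEnd ℂ)).eval (S₁ z) - (P.map (starRingEnd ℂ)).eval (S₂ z))
        / (S₁ z - S₂ z) / z ^ n
      + ((Q.map (starRingEnd ℂ)).eval (S₁ z) - (Q.map (starRingEnd ℂ)).eval (S₂ z))
        / (S₁ z - S₂ z) / z ^ (n + 1)) (cobounded ℂ)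
      (𝓝 (P.coeff (n + 1) * 1 ^ (n + 1)
        + ((n : ℂ) + 1) * (P.map (starRingEnd ℂ)).coeff (n + 1) * κ ^ n
        + (((n + 1 : ℕ) : ℂ) + 1) * (Q.map (starRingEnd ℂ)).coeff (n + 1 + 1) * κ ^ (n + 1))) :=
    ((lim_eval P (n + 1) hP _ 1 lim_id).add
      (lim_dd _ n (Polynomial.natDegree_map_le.trans hP) S₁ S₂ κ hs₁ hs₂ hne)).add
      (lim_dd _ (n + 1) (Polynomial.natDegree_map_le.trans hQ) S₁ S₂ κ hs₁ hs₂ hne)
  have h2 : Tendsto (fun z => P.eval z / z ^ (n + 1)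
      + ((P.map (starRingEnd ℂ)).eval (S₁ z) - (P.map (starRingEnd ℂ)).eval (S₂ z))
        / (S₁ z - S₂ z) / z ^ n
      + ((Q.map (starRingEnd ℂ)).eval (S₁ z) - (Q.map (starRingEnd ℂ)).eval (S₂ z))
        / (S₁ z - S₂ z) / z ^ (n + 1)) (cobounded ℂ) (𝓝 0) := by
    refine tendsto_const_nhds.congr' ?_
    filter_upwards [eventually_ne_cobounded (0:ℂ), r₁, r₂, hne] with z hz hr₁ hr₂ hst
    rw [conj_eval, conj_eval] at hr₁ hr₂
    have hst' : S₁ z - S₂ z ≠ 0 := sub_ne_zero.2 hst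
    have h3 : P.eval z / z ^ (n + 1)
      + ((P.map (starRingEnd ℂ)).eval (S₁ z) - (P.map (starRingEnd ℂ)).eval (S₂ z))
        / (S₁ z - S₂ z) / z ^ n
      + ((Q.map (starRingEnd ℂ)).eval (S₁ z) - (Q.map (starRingEnd ℂ)).eval (S₂ z))
        / (S₁ z - S₂ z) / z ^ (n + 1) =
      ((S₁ z * P.eval z + Q.eval z + z * (P.map (starRingEnd ℂ)).eval (S₁ z)
      + (Q.map (starRingEnd ℂ)).eval (S₁ z)) -
      (S₂ z * P.eval z + Q.eval z + z * (P.map (starRingEnd ℂ)).eval (S₂ z)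
      + (Q.map (starRingEnd ℂ)).eval (S₂ z))) / ((S₁ z - S₂ z) * z ^ (n + 1)) := by
      field_simp
      ring
    rw [h3, hr₁, hr₂, sub_self, zero_div]
  have h3 := tendsto_nhds_unique h1 h2
  rw [Polynomial.coeff_map, Polynomial.coeff_map] at h3
  push_cast at h3
  linear_combination h3

theorem poly_zero (S₁ S₂ : ℂ → ℂ) (κ₁ κ₂ : ℂ) (hκ₁ : ‖κ₁‖ < 1) (hκ₂ : ‖κ₂‖ < 1)
    (hs₁ : Tendsto (fun z => S₁ z / z) (cobounded ℂ) (𝓝 κ₁))
    (hs₂ : Tendsto (fun z => S₂ z / z) (cobounded ℂ) (𝓝 κ₂))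
    (hne : ∀ᶠ z in cobounded ℂ, S₁ z ≠ S₂ z)
    (P Q : Polynomial ℂ)
    (r₁ : ∀ᶠ z in cobounded ℂ, S₁ z * P.eval z + Q.eval z + z * conj (P.eval (conj (S₁ z)))
      + conj (Q.eval (conj (S₁ z))) = 0)
    (r₂ : ∀ᶠ z in cobounded ℂ, S₂ z * P.eval z + Q.eval z + z * conj (P.eval (conj (S₂ z)))
      + conj (Q.eval (conj (S₂ z))) = 0)
    (hP0 : P.coeff 0 = 0) (hP1 : (P.coeff 1).im = 0) : P = 0 ∧ Q.natDegree = 0 := by
  have hsq : ∀ κ μ p : ℂ, ‖κ‖ < 1 → ‖μ‖ < 1 → p = κ * μ * conj p → p = 0 := by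
    intro κ μ p h1 h2 h3
    have h4 := congrArg norm h3
    rw [norm_mul, norm_mul, Complex.norm_conj] at h4
    have h5 : ‖κ‖ * ‖μ‖ < 1 := by nlinarith [norm_nonneg κ, norm_nonneg μ]
    have h6 : ‖p‖ = 0 := by nlinarith [norm_nonneg p]
    exact norm_eq_zero.1 h6
  have hdown : ∀ d : ℕ, P.natDegree ≤ d → Q.natDegree ≤ d + 1 → P.coeff d = 0 ∧ Q.coeff (d + 1) = 0 := by
    intro d hP hQ
    have e₁ := lead_rel S₁ κ₁ hs₁ P Q d hP hQ r₁
    have e₂ := lead_rel S₂ κ₂ hs₂ P Q d hP hQ r₂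
    rcases Nat.lt_or_ge d 2 with hd | hd
    · interval_cases d
      · -- d = 0
        refine ⟨hP0, ?_⟩
        rw [hP0] at e₁
        simp only [map_zero, mul_zero, add_zero, zero_add, pow_one] at e₁
        have h1 : conj (Q.coeff 1) + conj κ₁ * Q.coeff 1 = 0 := by
          have := congrArg conj e₁
          simpa using this
        have h2 : Q.coeff 1 = κ₁ * conj κ₁ * Q.coeff 1 := by
          linear_combination e₁ - κ₁ * h1
        have h3 := congrArg norm h2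
        rw [norm_mul, norm_mul, Complex.norm_conj] at h3
        have h5 : ‖κ₁‖ * ‖κ₁‖ < 1 := by nlinarith [norm_nonneg κ₁]
        have h6 : ‖Q.coeff 1‖ = 0 := by nlinarith [norm_nonneg (Q.coeff 1)]
        exact norm_eq_zero.1 h6
      · -- d = 1
        have hc : conj (P.coeff 1) = P.coeff 1 := Complex.conj_eq_iff_im.2 hP1
        simp only [pow_one, hc] at e₁ e₂
        by_cases hκ : κ₁ = κ₂
        · subst hκ
          have e₃ := lead_dd S₁ S₂ κ₁ hs₁ hs₂ hne P Q 0 hP hQ r₁ r₂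
          simp only [Nat.cast_zero, zero_add, pow_zero, one_mul, mul_one, pow_one, hc] at e₃ e₁
          have hp : Q.coeff 2 = κ₁ * κ₁ * conj (Q.coeff 2) := by
            have e₁' : Q.coeff 2 + κ₁ * P.coeff 1 + κ₁ * P.coeff 1 + κ₁ ^ 2 * conj (Q.coeff 2) = 0 := e₁
            have e₃' : P.coeff 1 + P.coeff 1 + 2 * κ₁ * conj (Q.coeff 2) = 0 := e₃
            linear_combination e₁' - κ₁ * e₃'
          have hq := hsq κ₁ κ₁ _ hκ₁ hκ₁ hp
          refine ⟨?_, hq⟩
          have e₃' : P.coeff 1 + P.coeff 1 + 2 * κ₁ * conj (Q.coeff 2) = 0 := e₃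
          rw [hq, map_zero, mul_zero, add_zero] at e₃'
          linear_combination e₃' / 2
        · have hκ' : κ₁ - κ₂ ≠ 0 := sub_ne_zero.2 hκ
          have e₁' : Q.coeff 2 + κ₁ * P.coeff 1 + κ₁ * P.coeff 1 + κ₁ ^ 2 * conj (Q.coeff 2) = 0 := e₁
          have e₂' : Q.coeff 2 + κ₂ * P.coeff 1 + κ₂ * P.coeff 1 + κ₂ ^ 2 * conj (Q.coeff 2) = 0 := e₂
          have e₃ : 2 * P.coeff 1 + (κ₁ + κ₂) * conj (Q.coeff 2) = 0 := by
            have : (κ₁ - κ₂) * (2 * P.coeff 1 + (κ₁ + κ₂) * conj (Q.coeff 2)) = 0 := by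
              linear_combination e₁' - e₂'
            exact (mul_eq_zero.1 this).resolve_left hκ'
          have hp : Q.coeff 2 = κ₁ * κ₂ * conj (Q.coeff 2) := by
            linear_combination e₁' - κ₁ * e₃
          have hq := hsq κ₁ κ₂ _ hκ₁ hκ₂ hp
          refine ⟨?_, hq⟩
          rw [hq, map_zero, mul_zero, add_zero] at e₃
          linear_combination e₃ / 2
    · by_cases hκ : κ₁ = κ₂
      · subst hκ
        obtain ⟨n, rfl⟩ : ∃ n, d = n + 1 := ⟨d - 1, by omega⟩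
        have e₃ := lead_dd S₁ S₂ κ₁ hs₁ hs₂ hne P Q n hP hQ r₁ r₂
        refine alg_eq (n + 1) hd κ₁ _ _ hκ₁ e₁ ?_
        simp only [Nat.add_sub_cancel]
        push_cast
        linear_combination e₃
      · exact alg_ne d hd κ₁ κ₂ _ _ hκ₁ hκ₂ hκ e₁ e₂
  have hind : ∀ d : ℕ, P.natDegree ≤ d → Q.natDegree ≤ d + 1 → P = 0 ∧ Q.natDegree = 0 := by
    intro d
    induction d with
    | zero =>
      intro hP hQ
      obtain ⟨h1, h2⟩ := hdown 0 hP hQ
      refine ⟨?_, ?_⟩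
      · rw [Polynomial.eq_C_of_natDegree_le_zero hP, h1, Polynomial.C_0]
      · by_contra hne0
        have h3 : Q.natDegree = 1 := by omega
        have h4 : Q.coeff Q.natDegree = 0 := by rw [h3]; exact h2
        have h5 : Q = 0 := Polynomial.leadingCoeff_eq_zero.1 h4
        rw [h5] at h3
        simp at h3
    | succ d ih =>
      intro hP hQ
      obtain ⟨h1, h2⟩ := hdown (d + 1) hP hQ
      apply ih
      · by_contra hlt
        have h3 : P.natDegree = d + 1 := by omega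
        have h4 : P.coeff P.natDegree = 0 := by rw [h3]; exact h1
        have h5 : P = 0 := Polynomial.leadingCoeff_eq_zero.1 h4
        rw [h5] at h3
        simp at h3
      · by_contra hlt
        have h3 : Q.natDegree = d + 1 + 1 := by omega
        have h4 : Q.coeff Q.natDegree = 0 := by rw [h3]; exact h2
        have h5 : Q = 0 := Polynomial.leadingCoeff_eq_zero.1 h4
        rw [h5] at h3
        simp at h3
  exact hind (max P.natDegree Q.natDegree) (le_max_left _ _) ((le_max_right _ _).trans (Nat.le_succ _))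

end Pool.Agent.K3h53.BE
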