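import Mathlib
import Pool.Agent.K3h53.BE.Growth

set_option autoImplicit false

/-! Two functional equations with different contracting Schwarz functions force polynomials. -/

namespace Pool.Agent.K3h53.BE

open Complex Filter Topology Set ComplexConjugate Bornology

theorem entire_poly (S₁ S₂ : ℂ → ℂ) (θ C : ℝ) (hθ0 : 0 ≤ θ) (hθ1 : θ < 1)
    (hS₁ : ∀ᶠ z in cobounded ℂ, ‖S₁ z‖ ≤ θ * ‖z‖ + C)
    (hS₂ : ∀ᶠ z in cobounded ℂ, ‖S₂ z‖ ≤ θ * ‖z‖ + C)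
    (hne : ∀ᶠ z in cobounded ℂ, S₁ z ≠ S₂ z)
    (f g : ℂ → ℂ) (hf : Differentiable ℂ f) (hg : Differentiable ℂ g)
    (r₁ : ∀ᶠ z in cobounded ℂ,
      S₁ z * f z + g z + z * conj (f (conj (S₁ z))) + conj (g (conj (S₁ z))) = 0)
    (r₂ : ∀ᶠ z in cobounded ℂ,
      S₂ z * f z + g z + z * conj (f (conj (S₂ z))) + conj (g (conj (S₂ z))) = 0) :
    ∃ P Q : Polynomial ℂ, (∀ z, f z = P.eval z) ∧ (∀ z, g z = Q.eval z) := by
  have hall := (((hS₁.and hS₂).and hne).and r₁).and r₂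
  obtain ⟨R₀, -, hR₀⟩ := hasBasis_cobounded_norm.eventually_iff.1 hall
  set θ₁ := (1 + θ) / 2 with hθ₁
  set θ₂ := (1 + θ₁) / 2 with hθ₂
  have h1 : θ₁ < 1 := by rw [hθ₁]; linarith
  have h1' : 1 / 2 ≤ θ₁ := by rw [hθ₁]; linarith
  have h2 : θ₂ < 1 := by rw [hθ₂]; linarith
  have h2' : 1 / 2 ≤ θ₂ := by rw [hθ₂]; linarith
  have h12 : θ₂ - θ₁ = (1 - θ₁) / 2 := by rw [hθ₂]; ring
  set K₁ := (1 / θ₂ + 1) * (1 / (θ₂ - θ₁)) with hK₁
  have hd : 0 < θ₂ - θ₁ := by rw [h12]; linarith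
  have hK₁0 : 0 ≤ K₁ := by positivity
  set R := max (max R₀ 1) (C / (θ₁ - θ)) with hR
  have hRR0 : R₀ ≤ R := (le_max_left _ _).trans (le_max_left _ _)
  have hR1 : 1 ≤ R := (le_max_right _ _).trans (le_max_left _ _)
  have hRC : C / (θ₁ - θ) ≤ R := le_max_right _ _
  have hθθ : 0 < θ₁ - θ := by rw [hθ₁]; linarith
  rw [div_le_iff₀ hθθ] at hRC
  set H : ℂ → ℝ := fun z => ‖z‖ * ‖f z‖ + ‖g z‖ with hH
  have hHc : Continuous H := by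
    have := hf.continuous
    have := hg.continuous
    fun_prop
  have hHnn : ∀ z, 0 ≤ H z := fun z => by positivity
  have hmain : ∀ z, R ≤ ‖z‖ → ∀ S, (∀ w, ‖w‖ ≤ θ₂ * ‖z‖ → H w ≤ S) →
      H z ≤ (2 * K₁ + (1 / θ₂ + 1)) * S := by
    intro z hz S hS
    obtain ⟨⟨⟨⟨hb₁, hb₂⟩, hne'⟩, q₁⟩, q₂⟩ := hR₀ (show R₀ ≤ ‖z‖ from hRR0.trans hz)
    have hz1 : 1 ≤ ‖z‖ := hR1.trans hz
    have hz0 : 0 < ‖z‖ := by linarith
    have hC : C ≤ (θ₁ - θ) * ‖z‖ := by nlinarith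
    have hs₁ : ‖S₁ z‖ ≤ θ₁ * ‖z‖ := by linarith
    have hs₂ : ‖S₂ z‖ ≤ θ₁ * ‖z‖ := by linarith
    have hS0 : 0 ≤ S := (hHnn 0).trans (hS 0 (by rw [norm_zero]; positivity))
    set η := (θ₂ - θ₁) * ‖z‖ with hη
    have hη0 : 0 < η := by positivity
    have hρη : θ₁ * ‖z‖ + η = θ₂ * ‖z‖ := by rw [hη]; ring
    have hr0 : 0 < θ₂ * ‖z‖ := by positivity
    have hfb : ∀ w, ‖w‖ ≤ θ₂ * ‖z‖ → ‖f w‖ ≤ S / (θ₂ * ‖z‖) := by
      apply maxmod hf hr0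
      intro w hw
      have h3 := hS w hw.le
      rw [le_div_iff₀ hr0]
      have h4 : ‖w‖ * ‖f w‖ ≤ H w := by
        simp only [hH]; linarith [norm_nonneg (g w)]
      rw [hw] at h4
      linarith
    have hgb : ∀ w, ‖w‖ ≤ θ₂ * ‖z‖ → ‖g w‖ ≤ S := by
      intro w hw
      have h3 := hS w hw
      have h4 : ‖g w‖ ≤ H w := by
        simp only [hH]
        have : 0 ≤ ‖w‖ * ‖f w‖ := by positivity
        linarith
      linarith
    have hc₁ : ‖conj (S₁ z)‖ ≤ θ₁ * ‖z‖ := by rw [Complex.norm_conj]; exact hs₁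
    have hc₂ : ‖conj (S₂ z)‖ ≤ θ₁ * ‖z‖ := by rw [Complex.norm_conj]; exact hs₂
    have lf := lip hf hη0 (by rw [hρη]; exact hfb) (conj (S₁ z)) (conj (S₂ z)) hc₁ hc₂
    have lg := lip hg hη0 (by rw [hρη]; exact hgb) (conj (S₁ z)) (conj (S₂ z)) hc₁ hc₂
    have hcd : ‖conj (S₁ z) - conj (S₂ z)‖ = ‖S₁ z - S₂ z‖ := by
      rw [← map_sub, Complex.norm_conj]
    rw [hcd] at lf lg
    have hpos : 0 < ‖S₁ z - S₂ z‖ := norm_pos_iff.2 (sub_ne_zero.2 hne')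
    have hstar : (S₁ z - S₂ z) * f z = -(z * conj (f (conj (S₁ z)) - f (conj (S₂ z))) +
        conj (g (conj (S₁ z)) - g (conj (S₂ z)))) := by
      simp only [map_sub]
      linear_combination q₁ - q₂
    have hn : ‖S₁ z - S₂ z‖ * ‖f z‖ ≤ ‖z‖ * (S / (θ₂ * ‖z‖) / η * ‖S₁ z - S₂ z‖) +
        S / η * ‖S₁ z - S₂ z‖ := by
      rw [← norm_mul, hstar, norm_neg]
      refine (norm_add_le _ _).trans ?_
      rw [norm_mul, Complex.norm_conj, Complex.norm_conj]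
      gcongr
    have hfz : ‖z‖ * ‖f z‖ ≤ K₁ * S := by
      have h5 : ‖f z‖ ≤ ‖z‖ * (S / (θ₂ * ‖z‖) / η) + S / η := by
        have h6 : ‖S₁ z - S₂ z‖ * ‖f z‖ ≤ ‖S₁ z - S₂ z‖ * (‖z‖ * (S / (θ₂ * ‖z‖) / η) + S / η) := by
          refine hn.trans (le_of_eq ?_)
          ring
        exact le_of_mul_le_mul_left h6 hpos
      have h7 : ‖z‖ * (‖z‖ * (S / (θ₂ * ‖z‖) / η) + S / η) = K₁ * S := by
        rw [hK₁, hη]
        field_simp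
      calc ‖z‖ * ‖f z‖ ≤ ‖z‖ * (‖z‖ * (S / (θ₂ * ‖z‖) / η) + S / η) := by gcongr
        _ = K₁ * S := h7
    have hgz : ‖g z‖ ≤ K₁ * S + (1 / θ₂ + 1) * S := by
      have h5 : g z = -(S₁ z * f z + z * conj (f (conj (S₁ z))) + conj (g (conj (S₁ z)))) := by
        linear_combination q₁
      have h6 : ‖f (conj (S₁ z))‖ ≤ S / (θ₂ * ‖z‖) := hfb _ (hc₁.trans (by rw [← hρη]; linarith))
      have h7 : ‖g (conj (S₁ z))‖ ≤ S := hgb _ (hc₁.trans (by rw [← hρη]; linarith))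
      have h8 : ‖S₁ z‖ ≤ ‖z‖ := hs₁.trans (by nlinarith)
      calc ‖g z‖ = ‖S₁ z * f z + z * conj (f (conj (S₁ z))) + conj (g (conj (S₁ z)))‖ := by
            rw [h5, norm_neg]
        _ ≤ ‖S₁ z‖ * ‖f z‖ + ‖z‖ * ‖f (conj (S₁ z))‖ + ‖g (conj (S₁ z))‖ := by
            refine (norm_add₃_le).trans ?_
            rw [norm_mul, norm_mul, Complex.norm_conj, Complex.norm_conj]
        _ ≤ ‖z‖ * ‖f z‖ + ‖z‖ * (S / (θ₂ * ‖z‖)) + S := by gcongr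
        _ ≤ K₁ * S + S / θ₂ + S := by
            have : ‖z‖ * (S / (θ₂ * ‖z‖)) = S / θ₂ := by field_simp
            rw [this]; linarith
        _ = K₁ * S + (1 / θ₂ + 1) * S := by ring
    have : H z = ‖z‖ * ‖f z‖ + ‖g z‖ := rfl
    rw [this]
    calc ‖z‖ * ‖f z‖ + ‖g z‖ ≤ K₁ * S + (K₁ * S + (1 / θ₂ + 1) * S) := by linarith
      _ = (2 * K₁ + (1 / θ₂ + 1)) * S := by ring
  obtain ⟨A, B, hB, hgrow⟩ := growth H hHc hHnn θ₂ (2 * K₁ + (1 / θ₂ + 1)) R (by linarith) h2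
    (by positivity) (by linarith) hmain
  obtain ⟨P, hP⟩ := poly_of_growth hf (A := A) (R := R) hB (fun z hz => by
    have h3 := hgrow z hz
    have h4 : ‖z‖ * ‖f z‖ ≤ H z := by simp only [hH]; linarith [norm_nonneg (g z)]
    have h5 : 1 ≤ ‖z‖ := hR1.trans hz
    nlinarith [norm_nonneg (f z)])
  obtain ⟨Q, hQ⟩ := poly_of_growth hg (A := A) (R := R) hB (fun z hz => by
    have h3 := hgrow z hz
    have h4 : ‖g z‖ ≤ H z := by
      simp only [hH]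
      have : 0 ≤ ‖z‖ * ‖f z‖ := by positivity
      linarith
    linarith)
  exact ⟨P, Q, hP, hQ⟩

end Pool.Agent.K3h53.BE
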