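import Mathlib
import Pool.Agent.K3h53.BE.Conic

set_option autoImplicit false

/-! The Schwarz function near infinity. -/

namespace Pool.Agent.K3h53.BE

open Complex Filter Topology Set ComplexConjugate Bornology

theorem exists_S (z0 : ℂ) (a : ℝ) (ha : 0 < a) (b : ℂ) :
    ∃ S e : ℂ → ℂ, (∀ z, S z = conj z0 + (conj b / a) * (z - z0) + e z) ∧
      Tendsto (fun z => z * e z) (cobounded ℂ) (𝓝 ((a ^ 2 - ‖b‖ ^ 2 : ℝ) : ℂ)) ∧
      ∀ f g : ℂ → ℂ, Differentiable ℂ f → Differentiable ℂ g →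
        (∀ ζ : ℂ, ‖ζ‖ = 1 →
          (conj (Zf z0 a b ζ) * f (Zf z0 a b ζ) + g (Zf z0 a b ζ)).re = 0) →
        ∀ z, z ≠ z0 → S z * f z + g z + z * conj (f (conj (S z))) + conj (g (conj (S z))) = 0 := by
  have ha' : (a:ℂ) ≠ 0 := by exact_mod_cast ha.ne'
  choose! ζ hζ0 hζ hζn using exists_zeta z0 a ha b
  refine ⟨fun z => Wf z0 a b (ζ z), fun z => Wf z0 a b (ζ z) - conj z0 - (conj b / a) * (z - z0),
    fun z => by ring, ?_, ?_⟩
  · have hinv : Tendsto (fun z => (ζ z)⁻¹) (cobounded ℂ) (𝓝 0) := by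
      rw [tendsto_zero_iff_norm_tendsto_zero]
      have h1 : Tendsto (fun z : ℂ => 2 * a / ‖z - z0‖) (cobounded ℂ) (𝓝 0) := by
        apply Tendsto.const_div_atTop
        apply tendsto_atTop_mono (f := fun z : ℂ => ‖z‖ - ‖z0‖)
        · intro z
          exact norm_sub_norm_le z z0
        · exact tendsto_atTop_add_const_right _ _ tendsto_norm_cobounded_atTop
      refine squeeze_zero' (Eventually.of_forall fun z => norm_nonneg _) ?_ h1
      have h2 : ∀ᶠ z in cobounded ℂ, z ≠ z0 := eventually_ne_cobounded z0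
      filter_upwards [h2] with z hz
      have h3 := hζn z hz
      have h4 := hζ0 z hz
      have h5 : 0 < ‖ζ z‖ := norm_pos_iff.2 h4
      have h6 : 0 < ‖z - z0‖ := norm_pos_iff.2 (sub_ne_zero.2 hz)
      rw [norm_inv, inv_eq_one_div, div_le_div_iff₀ h5 h6]
      linarith
    have hlim : Tendsto (fun z => ((a ^ 2 - ‖b‖ ^ 2 : ℝ) : ℂ) *
        (1 + z0 / a * (ζ z)⁻¹ + b / a * ((ζ z)⁻¹ * (ζ z)⁻¹))) (cobounded ℂ)
        (𝓝 (((a ^ 2 - ‖b‖ ^ 2 : ℝ) : ℂ) * (1 + z0 / a * 0 + b / a * (0 * 0)))) :=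
      ((tendsto_const_nhds.add (hinv.const_mul _)).add ((hinv.mul hinv).const_mul _)).const_mul _
    have hval : ((a ^ 2 - ‖b‖ ^ 2 : ℝ) : ℂ) * (1 + z0 / a * 0 + b / a * (0 * 0)) =
        ((a ^ 2 - ‖b‖ ^ 2 : ℝ) : ℂ) := by ring
    rw [hval] at hlim
    refine hlim.congr' ?_
    filter_upwards [eventually_ne_cobounded z0] with z hz
    have h1 := hζ z hz
    have h2 := hζ0 z hz
    have h3 : b * conj b = ((‖b‖ ^ 2 : ℝ) : ℂ) := by
      rw [Complex.mul_conj, Complex.normSq_eq_norm_sq]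
    have h4 : ((a ^ 2 - ‖b‖ ^ 2 : ℝ) : ℂ) = a ^ 2 - b * conj b := by
      rw [h3]; push_cast; ring
    rw [h4]
    have h5 : z = z0 + a * ζ z + b / ζ z := h1.symm
    have h6 : Wf z0 a b (ζ z) - conj z0 - (conj b / a) * (z - z0) =
        (a ^ 2 - b * conj b) / (a * ζ z) := by
      rw [show z - z0 = a * ζ z + b / ζ z by linear_combination h5]
      unfold Wf
      field_simp
      ring
    rw [h6]
    have h7 : z / (a * ζ z) = 1 + z0 / a * (ζ z)⁻¹ + b / a * ((ζ z)⁻¹ * (ζ z)⁻¹) := by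
      rw [div_eq_iff (mul_ne_zero ha' h2)]
      nth_rw 1 [h5]
      field_simp
      ring
    rw [← h7]
    ring
  · intro f g hf hg h z hz
    have h1 := rel z0 a b f g hf hg h (ζ z) (hζ0 z hz)
    rw [hζ z hz] at h1
    exact h1

end Pool.Agent.K3h53.BE
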