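import Mathlib
import Pool.Agent.K3h53.BE.Schwarz
import Pool.Agent.K3h53.BE.Poly
import Pool.Agent.K3h53.BE.Lead

set_option autoImplicit false

/-! The complex form of the main theorem. -/

namespace Pool.Agent.K3h53.BE

open Complex Filter Topology Set ComplexConjugate Bornology

theorem S_facts (z0 : ℂ) (κ : ℂ) (L : ℂ) (S e : ℂ → ℂ)
    (hS : ∀ z, S z = conj z0 + κ * (z - z0) + e z)
    (he : Tendsto (fun z => z * e z) (cobounded ℂ) (𝓝 L)) :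
    Tendsto e (cobounded ℂ) (𝓝 0) ∧ Tendsto (fun z => S z / z) (cobounded ℂ) (𝓝 κ) ∧
      ∀ᶠ z in cobounded ℂ, ‖S z‖ ≤ ‖κ‖ * ‖z‖ + (‖conj z0 - κ * z0‖ + 1) := by
  have he0 : Tendsto e (cobounded ℂ) (𝓝 0) := by
    have h1 : Tendsto (fun z => (z * e z) * z⁻¹) (cobounded ℂ) (𝓝 (L * 0)) := he.mul lim_inv
    rw [mul_zero] at h1
    refine h1.congr' ?_
    filter_upwards [eventually_ne_cobounded (0:ℂ)] with z hz
    field_simp
  refine ⟨he0, ?_, ?_⟩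
  · have h1 : Tendsto (fun z => (conj z0 - κ * z0) * z⁻¹ + κ * (z / z) + e z * z⁻¹) (cobounded ℂ)
        (𝓝 ((conj z0 - κ * z0) * 0 + κ * 1 + 0 * 0)) :=
      ((lim_inv.const_mul _).add (lim_id.const_mul _)).add (he0.mul lim_inv)
    have h2 : (conj z0 - κ * z0) * 0 + κ * 1 + 0 * 0 = κ := by ring
    rw [h2] at h1
    refine h1.congr fun z => ?_
    rw [hS]; ring
  · have h1 : ∀ᶠ z in cobounded ℂ, ‖e z‖ < 1 := by
      have := he0.norm
      rw [norm_zero] at this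
      exact this.eventually (gt_mem_nhds one_pos)
    filter_upwards [h1] with z hz
    have h2 : S z = κ * z + ((conj z0 - κ * z0) + e z) := by rw [hS]; ring
    rw [h2]
    calc ‖κ * z + ((conj z0 - κ * z0) + e z)‖ ≤ ‖κ * z‖ + (‖conj z0 - κ * z0‖ + ‖e z‖) :=
          (norm_add_le _ _).trans (by gcongr; exact norm_add_le _ _)
      _ ≤ ‖κ‖ * ‖z‖ + (‖conj z0 - κ * z0‖ + 1) := by rw [norm_mul]; linarith

theorem S_ne (z1 z2 κ₁ κ₂ L₁ L₂ : ℂ) (S₁ S₂ e₁ e₂ : ℂ → ℂ) (hκ₁ : ‖κ₁‖ < 1)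
    (hS₁ : ∀ z, S₁ z = conj z1 + κ₁ * (z - z1) + e₁ z)
    (hS₂ : ∀ z, S₂ z = conj z2 + κ₂ * (z - z2) + e₂ z)
    (he₁ : Tendsto (fun z => z * e₁ z) (cobounded ℂ) (𝓝 L₁))
    (he₂ : Tendsto (fun z => z * e₂ z) (cobounded ℂ) (𝓝 L₂))
    (hne : κ₁ ≠ κ₂ ∨ z1 ≠ z2 ∨ L₁ ≠ L₂) : ∀ᶠ z in cobounded ℂ, S₁ z ≠ S₂ z := by
  obtain ⟨h01, hd1, -⟩ := S_facts z1 κ₁ L₁ S₁ e₁ hS₁ he₁
  obtain ⟨h02, hd2, -⟩ := S_facts z2 κ₂ L₂ S₂ e₂ hS₂ he₂
  by_cases hκ : κ₁ = κ₂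
  · subst hκ
    by_cases hz : z1 = z2
    · subst hz
      have hL : L₁ - L₂ ≠ 0 := by
        rcases hne with h | h | h
        · exact absurd rfl h
        · exact absurd rfl h
        · exact sub_ne_zero.2 h
      have h1 : Tendsto (fun z => z * e₁ z - z * e₂ z) (cobounded ℂ) (𝓝 (L₁ - L₂)) := he₁.sub he₂
      filter_upwards [h1.eventually_ne hL] with z hz heq
      apply hz
      rw [hS₁, hS₂] at heq
      linear_combination z * heq
    · have hz' : (conj z1 - κ₁ * z1) - (conj z2 - κ₁ * z2) ≠ 0 := by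
        intro h0
        have h1 : conj (z1 - z2) = κ₁ * (z1 - z2) := by
          rw [map_sub]; linear_combination h0
        have h2 := congrArg norm h1
        rw [Complex.norm_conj, norm_mul] at h2
        have h3 : 0 < ‖z1 - z2‖ := norm_pos_iff.2 (sub_ne_zero.2 hz)
        nlinarith
      have h1 : Tendsto (fun z => ((conj z1 - κ₁ * z1) - (conj z2 - κ₁ * z2)) + (e₁ z - e₂ z))
          (cobounded ℂ) (𝓝 (((conj z1 - κ₁ * z1) - (conj z2 - κ₁ * z2)) + (0 - 0))) :=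
        tendsto_const_nhds.add (h01.sub h02)
      have h2 : ((conj z1 - κ₁ * z1) - (conj z2 - κ₁ * z2)) + (0 - 0) ≠ 0 := by
        simpa using hz'
      filter_upwards [h1.eventually_ne h2] with z hz heq
      apply hz
      rw [hS₁, hS₂] at heq
      linear_combination heq
  · have h1 : Tendsto (fun z => S₁ z / z - S₂ z / z) (cobounded ℂ) (𝓝 (κ₁ - κ₂)) := hd1.sub hd2
    filter_upwards [h1.eventually_ne (sub_ne_zero.2 hκ)] with z hz heq
    apply hz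
    rw [heq]; ring

theorem main_complex (z1 : ℂ) (a1 : ℝ) (b1 : ℂ) (z2 : ℂ) (a2 : ℝ) (b2 : ℂ) (ha1 : 0 < a1)
    (ha2 : 0 < a2) (hb1 : ‖b1‖ < a1) (hb2 : ‖b2‖ < a2) (hne : z1 ≠ z2 ∨ a1 ≠ a2 ∨ b1 ≠ b2)
    (f g : ℂ → ℂ) (hf : Differentiable ℂ f) (hg : Differentiable ℂ g)
    (h1 : ∀ ζ : ℂ, ‖ζ‖ = 1 →
      (conj (Zf z1 a1 b1 ζ) * f (Zf z1 a1 b1 ζ) + g (Zf z1 a1 b1 ζ)).re = 0)
    (h2 : ∀ ζ : ℂ, ‖ζ‖ = 1 →
      (conj (Zf z2 a2 b2 ζ) * f (Zf z2 a2 b2 ζ) + g (Zf z2 a2 b2 ζ)).re = 0) (z : ℂ) :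
    (conj z * f z + g z).re = 0 := by
  have ha1' : (a1:ℂ) ≠ 0 := by exact_mod_cast ha1.ne'
  have ha2' : (a2:ℂ) ≠ 0 := by exact_mod_cast ha2.ne'
  -- normalisation
  set f' : ℂ → ℂ := fun z => f z - f 0 - ((deriv f 0).im : ℂ) * I * z with hf'
  set g' : ℂ → ℂ := fun z => g z + conj (f 0) * z with hg'
  have hf'd : Differentiable ℂ f' := by
    simp only [hf']; fun_prop
  have hg'd : Differentiable ℂ g' := by
    simp only [hg']; fun_prop
  have hre : ∀ z, (conj z * f' z + g' z).re = (conj z * f z + g z).re := by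
    intro z
    have h3 : conj z * f' z + g' z = (conj z * f z + g z) +
        (conj (f 0) * z - conj (conj (f 0) * z)) - ((deriv f 0).im : ℂ) * I * (z * conj z) := by
      simp only [hf', hg', map_mul, Complex.conj_conj]; ring
    rw [h3, Complex.mul_conj]
    simp
  have h1' : ∀ ζ : ℂ, ‖ζ‖ = 1 →
      (conj (Zf z1 a1 b1 ζ) * f' (Zf z1 a1 b1 ζ) + g' (Zf z1 a1 b1 ζ)).re = 0 := by
    intro ζ hζ; rw [hre]; exact h1 ζ hζ
  have h2' : ∀ ζ : ℂ, ‖ζ‖ = 1 →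
      (conj (Zf z2 a2 b2 ζ) * f' (Zf z2 a2 b2 ζ) + g' (Zf z2 a2 b2 ζ)).re = 0 := by
    intro ζ hζ; rw [hre]; exact h2 ζ hζ
  rw [← hre]
  obtain ⟨S₁, e₁, hS₁, he₁, hr₁⟩ := exists_S z1 a1 ha1 b1
  obtain ⟨S₂, e₂, hS₂, he₂, hr₂⟩ := exists_S z2 a2 ha2 b2
  set κ₁ := conj b1 / (a1:ℂ) with hκ₁
  set κ₂ := conj b2 / (a2:ℂ) with hκ₂
  have hn1 : ‖κ₁‖ < 1 := by
    rw [hκ₁, norm_div, Complex.norm_conj, Complex.norm_real, Real.norm_of_nonneg ha1.le,
      div_lt_one ha1]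
    exact hb1
  have hn2 : ‖κ₂‖ < 1 := by
    rw [hκ₂, norm_div, Complex.norm_conj, Complex.norm_real, Real.norm_of_nonneg ha2.le,
      div_lt_one ha2]
    exact hb2
  obtain ⟨-, hd₁, hbd₁⟩ := S_facts z1 κ₁ _ S₁ e₁ hS₁ he₁
  obtain ⟨-, hd₂, hbd₂⟩ := S_facts z2 κ₂ _ S₂ e₂ hS₂ he₂
  have hSne : ∀ᶠ z in cobounded ℂ, S₁ z ≠ S₂ z := by
    apply S_ne z1 z2 κ₁ κ₂ _ _ S₁ S₂ e₁ e₂ hn1 hS₁ hS₂ he₁ he₂
    by_contra hcon
    push Not at hcon
    obtain ⟨hk, hz, hL⟩ := hcon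
    have hL' : a1 ^ 2 - ‖b1‖ ^ 2 = a2 ^ 2 - ‖b2‖ ^ 2 := by exact_mod_cast hL
    have hkn : ‖b1‖ / a1 = ‖b2‖ / a2 := by
      have := congrArg norm hk
      rwa [hκ₁, hκ₂, norm_div, norm_div, Complex.norm_conj, Complex.norm_conj, Complex.norm_real,
        Complex.norm_real, Real.norm_of_nonneg ha1.le, Real.norm_of_nonneg ha2.le] at this
    have hcross : ‖b1‖ * a2 = ‖b2‖ * a1 := by
      rwa [div_eq_div_iff ha1.ne' ha2.ne'] at hkn
    have haa : a1 = a2 := by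
      have h5 : (a1 ^ 2 - a2 ^ 2) * (a1 ^ 2 - ‖b1‖ ^ 2) = 0 := by
        have h6 : ‖b1‖ ^ 2 * a2 ^ 2 = ‖b2‖ ^ 2 * a1 ^ 2 := by
          have : (‖b1‖ * a2) ^ 2 = (‖b2‖ * a1) ^ 2 := by rw [hcross]
          linear_combination this
        linear_combination h6 + a1 ^ 2 * hL'
      have h7 : 0 < a1 ^ 2 - ‖b1‖ ^ 2 := by nlinarith [norm_nonneg b1]
      have h8 : a1 ^ 2 - a2 ^ 2 = 0 := (mul_eq_zero.1 h5).resolve_right h7.ne'
      nlinarith
    have hbb : b1 = b2 := by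
      have h9 : conj b1 = conj b2 := by
        have : conj b1 / (a1:ℂ) = conj b2 / (a2:ℂ) := hk
        rw [haa] at this
        rwa [div_left_inj' ha2'] at this
      exact (starRingEnd ℂ).injective h9
    rcases hne with h | h | h
    · exact h hz
    · exact h haa
    · exact h hbb
  have r₁ : ∀ᶠ z in cobounded ℂ,
      S₁ z * f' z + g' z + z * conj (f' (conj (S₁ z))) + conj (g' (conj (S₁ z))) = 0 := by
    filter_upwards [eventually_ne_cobounded z1] with z hz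
    exact hr₁ f' g' hf'd hg'd h1' z hz
  have r₂ : ∀ᶠ z in cobounded ℂ,
      S₂ z * f' z + g' z + z * conj (f' (conj (S₂ z))) + conj (g' (conj (S₂ z))) = 0 := by
    filter_upwards [eventually_ne_cobounded z2] with z hz
    exact hr₂ f' g' hf'd hg'd h2' z hz
  set θ := max ‖κ₁‖ ‖κ₂‖ with hθ
  set C := max (‖conj z1 - κ₁ * z1‖ + 1) (‖conj z2 - κ₂ * z2‖ + 1) with hC
  obtain ⟨P, Q, hP, hQ⟩ := entire_poly S₁ S₂ θ C ((norm_nonneg _).trans (le_max_left _ _))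
    (max_lt hn1 hn2) (by
      filter_upwards [hbd₁] with z hz
      refine hz.trans ?_
      gcongr
      · exact le_max_left _ _
      · exact le_max_left _ _) (by
      filter_upwards [hbd₂] with z hz
      refine hz.trans ?_
      gcongr
      · exact le_max_right _ _
      · exact le_max_right _ _) hSne f' g' hf'd hg'd r₁ r₂
  have hPf : f' = fun z => P.eval z := funext hP
  have hQg : g' = fun z => Q.eval z := funext hQ
  rw [hPf, hQg] at r₁ r₂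
  have hP0 : P.coeff 0 = 0 := by
    rw [Polynomial.coeff_zero_eq_eval_zero, ← hP]
    simp [hf']
  have hP1 : (P.coeff 1).im = 0 := by
    have h3 : P.coeff 1 = deriv f' 0 := by
      have h4 : f' = fun z => P.eval z := funext hP
      rw [h4, Polynomial.deriv, ← Polynomial.coeff_zero_eq_eval_zero, Polynomial.coeff_derivative]
      simp
    have h5 : deriv f' 0 = deriv f 0 - ((deriv f 0).im : ℂ) * I := by
      have h6 : HasDerivAt f' (deriv f 0 - ((deriv f 0).im : ℂ) * I * 1) 0 := by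
        exact ((hf 0).hasDerivAt.sub_const (f 0)).sub ((hasDerivAt_id (0:ℂ)).const_mul _)
      rw [h6.deriv, mul_one]
    rw [h3, h5]
    simp
  obtain ⟨hPz, hQz⟩ := poly_zero S₁ S₂ κ₁ κ₂ hn1 hn2 hd₁ hd₂ hSne P Q r₁ r₂ hP0 hP1
  have hQc : ∀ z, g' z = Q.coeff 0 := by
    intro z
    rw [hQ, Polynomial.eq_C_of_natDegree_eq_zero hQz]
    simp
  have hf0 : ∀ z, f' z = 0 := by
    intro z
    rw [hP, hPz, Polynomial.eval_zero]
  have h3 := h1' 1 (by simp)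
  rw [hf0, hQc, mul_zero, zero_add] at h3
  rw [hf0, hQc, mul_zero, zero_add]
  exact h3

end Pool.Agent.K3h53.BE
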