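import Mathlib
import Pool.Agent.K3h53.BE.MainC
import Pool.Agent.K3h53.BE.Goursat

set_option autoImplicit false

/-! Transfer between the plane and the complex numbers; parametrisation of ellipses. -/

namespace Pool.Agent.K3h53.BE

open Complex Filter Topology Set ComplexConjugate InnerProductSpace Laplacian

/-- The square root of a positive definite quadratic form in complex notation. -/
theorem quad_param (p q r : ℝ) (hp : 0 < p) (hr : 0 < r) (hdet : 0 < p * r - q ^ 2) :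
    ∃ a : ℝ, ∃ b : ℂ, 0 < a ∧ ‖b‖ < a ∧ ∀ ζ : ℂ,
      p * ((a:ℂ) * ζ + b * conj ζ).re ^ 2 +
        2 * q * ((a:ℂ) * ζ + b * conj ζ).re * ((a:ℂ) * ζ + b * conj ζ).im +
        r * ((a:ℂ) * ζ + b * conj ζ).im ^ 2 = ζ.re ^ 2 + ζ.im ^ 2 := by
  set D := Real.sqrt (p * r - q ^ 2) with hD
  have hD0 : 0 < D := Real.sqrt_pos.2 hdet
  have hD2 : D ^ 2 = p * r - q ^ 2 := Real.sq_sqrt hdet.le
  set T := p + r + 2 * D with hT
  have hT0 : 0 < T := by positivity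
  set s := 1 / (D * Real.sqrt T) with hs
  have hsT : 0 < Real.sqrt T := Real.sqrt_pos.2 hT0
  have hs0 : 0 < s := by positivity
  have hs2 : s ^ 2 * D ^ 2 * T = 1 := by
    have h1 : Real.sqrt T ^ 2 = T := Real.sq_sqrt hT0.le
    rw [hs, div_pow, mul_pow, h1]
    field_simp
  refine ⟨s * T / 2, ⟨s * (r - p) / 2, -(s * q)⟩, by positivity, ?_, ?_⟩
  · have h1 : ‖(⟨s * (r - p) / 2, -(s * q)⟩ : ℂ)‖ ^ 2 < (s * T / 2) ^ 2 := by
      rw [← Complex.normSq_eq_norm_sq, Complex.normSq_mk]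
      have h2 : (s * T / 2) ^ 2 - (s * (r - p) / 2 * (s * (r - p) / 2) + -(s * q) * -(s * q)) =
          s ^ 2 * (2 * D ^ 2 + D * (p + r)) := by
        rw [hT]
        linear_combination (-s ^ 2) * hD2
      have h3 : 0 < s ^ 2 * (2 * D ^ 2 + D * (p + r)) := by positivity
      linarith
    exact lt_of_pow_lt_pow_left₀ 2 (by positivity) h1
  · intro ζ
    simp only [add_re, mul_re, ofReal_re, ofReal_im, conj_re, conj_im, add_im, mul_im, zero_mul,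
      sub_zero, add_zero]
    set X := ζ.re
    set Y := ζ.im
    rw [hT] at hs2 ⊢
    linear_combination (X ^ 2 + Y ^ 2) * hs2 -
      s ^ 2 * ((r + 2 * D) * X ^ 2 + (p + 2 * D) * Y ^ 2 - 2 * q * X * Y) * hD2

/-- The standard isometry. -/
noncomputable def phi : ℂ ≃ₗᵢ[ℝ] EuclideanSpace ℝ (Fin 2) := Complex.orthonormalBasisOneI.repr

theorem phi_zero (z : ℂ) : phi z 0 = z.re := by
  simp [phi]

theorem phi_one (z : ℂ) : phi z 1 = z.im := by
  simp [phi]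

theorem laplacian_comp_phi (u : EuclideanSpace ℝ (Fin 2) → ℝ) :
    Δ (u ∘ phi) = (Δ u) ∘ phi := by
  rw [laplacian_eq_iteratedFDeriv_orthonormalBasis (u ∘ phi) Complex.orthonormalBasisOneI,
    laplacian_eq_iteratedFDeriv_orthonormalBasis u (Complex.orthonormalBasisOneI.map phi)]
  funext x
  simp only [Function.comp_apply]
  apply Finset.sum_congr rfl
  intro i _
  have h1 := phi.toContinuousLinearEquiv.iteratedFDerivWithin_comp_right u (s := univ)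
    uniqueDiffOn_univ (x := x) (mem_univ _) 2
  rw [preimage_univ, iteratedFDerivWithin_univ, iteratedFDerivWithin_univ] at h1
  have h2 : u ∘ phi = u ∘ (phi.toContinuousLinearEquiv : ℂ ≃L[ℝ] EuclideanSpace ℝ (Fin 2)) := rfl
  rw [h2, h1]
  simp only [ContinuousMultilinearMap.compContinuousLinearMap_apply, OrthonormalBasis.map_apply]
  congr 1
  funext j
  fin_cases j <;> simp

/-- The ellipse `(x - c)ᵀ A (x - c) = 1` -/
def ell (c : EuclideanSpace ℝ (Fin 2)) (A : Matrix (Fin 2) (Fin 2) ℝ) :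
    Set (EuclideanSpace ℝ (Fin 2)) :=
  {x | ∑ i, ∑ j, (x i - c i) * A i j * (x j - c j) = 1}

theorem ell_param (c : EuclideanSpace ℝ (Fin 2)) (A : Matrix (Fin 2) (Fin 2) ℝ) (hA : A.PosDef) :
    ∃ z0 : ℂ, ∃ a : ℝ, ∃ b : ℂ, 0 < a ∧ ‖b‖ < a ∧
      ∀ z : ℂ, phi z ∈ ell c A ↔ ∃ ζ : ℂ, ‖ζ‖ = 1 ∧ z = Zf z0 a b ζ := by
  have hsymm : A 1 0 = A 0 1 := by
    have := hA.isHermitian.apply 0 1
    simpa using this
  have hdet : 0 < A 0 0 * A 1 1 - A 0 1 ^ 2 := by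
    have := hA.det_pos
    rw [Matrix.det_fin_two, hsymm] at this
    nlinarith
  have hp : 0 < A 0 0 := hA.diag_pos
  have hr : 0 < A 1 1 := hA.diag_pos
  obtain ⟨a, b, ha, hb, hab⟩ := quad_param (A 0 0) (A 0 1) (A 1 1) hp hr hdet
  set z0 : ℂ := phi.symm c with hz0
  have hc : c = phi z0 := by simp [hz0]
  have hmem : ∀ z : ℂ, phi z ∈ ell c A ↔ A 0 0 * (z - z0).re ^ 2 +
      2 * A 0 1 * (z - z0).re * (z - z0).im + A 1 1 * (z - z0).im ^ 2 = 1 := by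
    intro z
    rw [ell, mem_ofPred_eq, hc]
    simp only [Fin.sum_univ_two, phi_zero, phi_one, hsymm, sub_re, sub_im]
    constructor <;> intro h <;> linarith
  refine ⟨z0, a, b, ha, hb, fun z => ?_⟩
  rw [hmem]
  constructor
  · intro h
    have hba : (a:ℂ) ^ 2 - b * conj b ≠ 0 := by
      rw [Complex.mul_conj, Complex.normSq_eq_norm_sq]
      have h1 : 0 < a ^ 2 - ‖b‖ ^ 2 := by nlinarith [norm_nonneg b]
      have h2 : ((a ^ 2 - ‖b‖ ^ 2 : ℝ) : ℂ) ≠ 0 := by exact_mod_cast h1.ne'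
      push_cast at h2 ⊢
      exact h2
    have hstar : conj ((a:ℂ) ^ 2 - b * conj b) = (a:ℂ) ^ 2 - b * conj b := by
      simp only [map_sub, map_mul, map_pow, Complex.conj_ofReal, Complex.conj_conj]; ring
    set ζ := ((a:ℂ) * (z - z0) - b * conj (z - z0)) / ((a:ℂ) ^ 2 - b * conj b) with hζ
    have hw : (a:ℂ) * ζ + b * conj ζ = z - z0 := by
      rw [hζ, map_div₀, hstar]
      simp only [map_sub, map_mul, Complex.conj_ofReal, Complex.conj_conj]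
      field_simp
      ring
    have h3 := hab ζ
    rw [hw, h] at h3
    have hn : ‖ζ‖ = 1 := by
      have h4 : ‖ζ‖ ^ 2 = 1 := by
        rw [← Complex.normSq_eq_norm_sq, Complex.normSq_apply]
        linarith
      have h5 := norm_nonneg ζ
      nlinarith
    refine ⟨ζ, hn, ?_⟩
    rw [Zf, div_eq_mul_inv, Complex.inv_eq_conj hn]
    linear_combination -hw
  · rintro ⟨ζ, hn, rfl⟩
    have h1 : Zf z0 a b ζ - z0 = (a:ℂ) * ζ + b * conj ζ := by
      rw [Zf, div_eq_mul_inv, Complex.inv_eq_conj hn]; ring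
    rw [h1, hab ζ]
    have h4 : ‖ζ‖ ^ 2 = 1 := by rw [hn]; norm_num
    rw [← Complex.normSq_eq_norm_sq, Complex.normSq_apply] at h4
    linarith

theorem main (u : EuclideanSpace ℝ (Fin 2) → ℝ) (hu : ContDiff ℝ 4 u)
    (hΔ : Δ (Δ u) = 0) (c₁ c₂ : EuclideanSpace ℝ (Fin 2)) (A₁ A₂ : Matrix (Fin 2) (Fin 2) ℝ)
    (h₁ : A₁.PosDef) (h₂ : A₂.PosDef) (hne : ell c₁ A₁ ≠ ell c₂ A₂)
    (hz : ∀ x ∈ ell c₁ A₁ ∪ ell c₂ A₂, u x = 0) : u = 0 := by
  obtain ⟨z1, a1, b1, ha1, hb1, hp1⟩ := ell_param c₁ A₁ h₁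
  obtain ⟨z2, a2, b2, ha2, hb2, hp2⟩ := ell_param c₂ A₂ h₂
  have hpar : z1 ≠ z2 ∨ a1 ≠ a2 ∨ b1 ≠ b2 := by
    by_contra hcon
    push Not at hcon
    obtain ⟨e1, e2, e3⟩ := hcon
    apply hne
    ext x
    have hx : x = phi (phi.symm x) := by simp
    rw [hx, hp1, hp2, e1, e2, e3]
  have hUC : ContDiff ℝ 4 (u ∘ phi) := hu.comp phi.contDiff
  have hUΔ : ∀ z, Δ (Δ (u ∘ phi)) z = 0 := by
    intro z
    rw [laplacian_comp_phi, laplacian_comp_phi, hΔ]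
    rfl
  obtain ⟨f, g, hf, hg, hfg⟩ := goursat (u ∘ phi) hUC hUΔ
  have hv1 : ∀ ζ : ℂ, ‖ζ‖ = 1 →
      (conj (Zf z1 a1 b1 ζ) * f (Zf z1 a1 b1 ζ) + g (Zf z1 a1 b1 ζ)).re = 0 := by
    intro ζ hζ
    rw [← hfg]
    exact hz _ (Or.inl ((hp1 _).2 ⟨ζ, hζ, rfl⟩))
  have hv2 : ∀ ζ : ℂ, ‖ζ‖ = 1 →
      (conj (Zf z2 a2 b2 ζ) * f (Zf z2 a2 b2 ζ) + g (Zf z2 a2 b2 ζ)).re = 0 := by
    intro ζ hζ
    rw [← hfg]
    exact hz _ (Or.inr ((hp2 _).2 ⟨ζ, hζ, rfl⟩))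
  funext x
  have h3 := main_complex z1 a1 b1 z2 a2 b2 ha1 ha2 hb1 hb2 hpar f g hf hg hv1 hv2 (phi.symm x)
  rw [← hfg] at h3
  simpa using h3

end Pool.Agent.K3h53.BE
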