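import Mathlib
import Pool.Agent.K3h53.BE.Transfer

set_option autoImplicit false

/-! Biharmonic functions on the plane vanishing on two distinct ellipses are identically zero. -/

namespace Pool.Agent.K3h53.BE.NoTwoEllipses

open InnerProductSpace Laplacian

/-- The ellipse `(x - c)ᵀ A (x - c) = 1` in the plane. -/
def ellipse (c : EuclideanSpace ℝ (Fin 2)) (A : Matrix (Fin 2) (Fin 2) ℝ) :
    Set (EuclideanSpace ℝ (Fin 2)) :=
  {x | ∑ i, ∑ j, (x i - c i) * A i j * (x j - c j) = 1}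

/-- Every real-analytic `u` on the plane with `Δ (Δ u) = 0` that vanishes on two distinct ellipses
(arbitrary centres, arbitrary symmetric positive definite matrices) is identically zero. -/
theorem result (u : EuclideanSpace ℝ (Fin 2) → ℝ) (hu : AnalyticOnNhd ℝ u Set.univ)
    (hbi : Δ (Δ u) = 0) (c₁ c₂ : EuclideanSpace ℝ (Fin 2)) (A₁ A₂ : Matrix (Fin 2) (Fin 2) ℝ)
    (h₁ : A₁.PosDef) (h₂ : A₂.PosDef) (hne : ellipse c₁ A₁ ≠ ellipse c₂ A₂)
    (hz : ∀ x ∈ ellipse c₁ A₁ ∪ ellipse c₂ A₂, u x = 0) : ∀ x, u x = 0 := by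
  have hC : ContDiff ℝ 4 u := by
    rw [← contDiffOn_univ]
    exact hu.contDiffOn uniqueDiffOn_univ
  intro x
  exact congrFun (Pool.Agent.K3h53.BE.main u hC hbi c₁ c₂ A₁ A₂ h₁ h₂ hne hz) x

end Pool.Agent.K3h53.BE.NoTwoEllipses
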